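import Mathlib

/-!
# Relative presentations and cocycles on coverings

Relative presentations: a coefficient group `G₀`, new generators `X` and relators, which are words
in the elements of `G₀` and in the generators and their inverses. Cocycles on the covering which
belongs to a homomorphism `ρ` from the group of the relative presentation to a group `A`; free
sides of finite sets of 2-cells of the covering.
-/

set_option autoImplicit false

namespace Pool.Agent.X237.FS

open Monoid

/-- Letters: `inl g` is the element `g` of the coefficient group, `inr (x, true)` the generator `x`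
and `inr (x, false)` its inverse. -/
abbrev Letter (G₀ X : Type) : Type := G₀ ⊕ X × Bool

/-- The free product of the coefficient group and the free group on the new generators. -/
abbrev Base (G₀ X : Type) [Group G₀] : Type := Coprod G₀ (FreeGroup X)

section defs

variable {G₀ X R A : Type} [Group G₀] [Group A]

/-- The generator `x` as an element of the free product. -/
def gen (G₀ : Type) {X : Type} [Group G₀] (x : X) : Base G₀ X := Coprod.inr (FreeGroup.of x)

/-- The value of a letter. -/
def lval : Letter G₀ X → Base G₀ X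
  | .inl g => Coprod.inl g
  | .inr (x, true) => gen G₀ x
  | .inr (x, false) => (gen G₀ x)⁻¹

/-- The value of a word. -/
def val (w : List (Letter G₀ X)) : Base G₀ X := (w.map lval).prod

/-- The group of the relative presentation with the relators `r e`. -/
def Grp (r : R → List (Letter G₀ X)) : Type :=
  Base G₀ X ⧸ Subgroup.normalClosure (Set.range fun e => val (r e))

instance (r : R → List (Letter G₀ X)) : Group (Grp r) :=
  inferInstanceAs (Group (Base G₀ X ⧸ Subgroup.normalClosure (Set.range fun e => val (r e))))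

/-- The projection of the free product to the group of the relative presentation. -/
def pr (r : R → List (Letter G₀ X)) : Base G₀ X →* Grp r :=
  QuotientGroup.mk' (Subgroup.normalClosure (Set.range fun e => val (r e)))

/-- The coefficient homomorphism from `G₀` to the group of the relative presentation. -/
def coef (r : R → List (Letter G₀ X)) : G₀ →* Grp r := (pr r).comp Coprod.inl

/-- The sides of the lift, starting at `a`, of the path with the word `w` to the covering whose
vertices are the elements of `A`: the pair `(x, b)` is the edge from `b` to `b σ(x)`. Here `σ` is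
a homomorphism from the free product to `A`; the letters of the coefficient group have no side. -/
def sides (σ : Base G₀ X →* A) : A → List (Letter G₀ X) → List (X × A)
  | _, [] => []
  | a, .inl g :: w => sides σ (a * σ (Coprod.inl g)) w
  | a, .inr (x, true) :: w => (x, a) :: sides σ (a * σ (gen G₀ x)) w
  | a, .inr (x, false) :: w =>
      (x, a * (σ (gen G₀ x))⁻¹) :: sides σ (a * (σ (gen G₀ x))⁻¹) w

/-- The side `s` of the 2-cell `d = (e, a)` of the covering belonging to `ρ : G → A` is free with
respect to the finite set `S` of 2-cells: it occurs exactly once in the boundary of `d` and does not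
occur in the boundaries of the other 2-cells of `S`. -/
def IsFree (r : R → List (Letter G₀ X)) (ρ : Grp r →* A) (S : Finset (R × A)) (d : R × A)
    (s : X × A) : Prop :=
  (∃ l₁ l₂ : List (X × A), sides (ρ.comp (pr r)) d.2 (r d.1) = l₁ ++ s :: l₂ ∧ s ∉ l₁ ∧ s ∉ l₂) ∧
    ∀ d' ∈ S, d' ≠ d → s ∉ sides (ρ.comp (pr r)) d'.2 (r d'.1)

/-- Every nonempty finite set of 2-cells of the covering belonging to `ρ : G → A` has a free side. -/
def FreeSides (r : R → List (Letter G₀ X)) (ρ : Grp r →* A) : Prop :=
  ∀ S : Finset (R × A), S.Nonempty → ∃ d ∈ S, ∃ s, IsFree r ρ S d s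

end defs

section basic

variable {G₀ X R A : Type} [Group G₀] [Group A]

theorem val_nil : val ([] : List (Letter G₀ X)) = 1 := rfl

theorem val_cons (l : Letter G₀ X) (w : List (Letter G₀ X)) : val (l :: w) = lval l * val w := by
  simp [val]

theorem val_append (w w' : List (Letter G₀ X)) : val (w ++ w') = val w * val w' := by
  simp [val]

theorem pr_surjective (r : R → List (Letter G₀ X)) : Function.Surjective (pr r) :=
  QuotientGroup.mk'_surjective _

theorem pr_val (r : R → List (Letter G₀ X)) (e : R) : pr r (val (r e)) = 1 :=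
  (QuotientGroup.eq_one_iff _).2 (Subgroup.subset_normalClosure ⟨e, rfl⟩)

theorem pr_eq_one {r : R → List (Letter G₀ X)} {w : Base G₀ X} :
    pr r w = 1 ↔ w ∈ Subgroup.normalClosure (Set.range fun e => val (r e)) :=
  QuotientGroup.eq_one_iff _

/-- the sides of a product -/
theorem sides_append (σ : Base G₀ X →* A) (a : A) (w w' : List (Letter G₀ X)) :
    sides σ a (w ++ w') = sides σ a w ++ sides σ (a * σ (val w)) w' := by
  induction w generalizing a with
  | nil => simp [sides, val_nil]
  | cons l w ih =>
    rcases l with g | ⟨x, _ | _⟩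
    · simp only [List.cons_append, sides]
      rw [ih, val_cons, map_mul, ← mul_assoc]; rfl
    · simp only [List.cons_append, sides]
      rw [ih, val_cons, map_mul, ← mul_assoc]
      show _ = _ :: (_ ++ sides σ (a * σ (gen G₀ x)⁻¹ * σ (val w)) w')
      rw [map_inv]
    · simp only [List.cons_append, sides]
      rw [ih, val_cons, map_mul, ← mul_assoc]; rfl

/-- translation of sides -/
theorem sides_smul (σ : Base G₀ X →* A) (h a : A) (w : List (Letter G₀ X)) :
    sides σ (h * a) w = (sides σ a w).map fun s => (s.1, h * s.2) := by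
  induction w generalizing a with
  | nil => rfl
  | cons l w ih =>
    rcases l with g | ⟨x, _ | _⟩
    · simp only [sides]
      rw [mul_assoc, ih]
    · simp only [sides, List.map_cons]
      rw [mul_assoc, ih]
    · simp only [sides, List.map_cons]
      rw [mul_assoc, ih]

theorem sides_eq_map (σ : Base G₀ X →* A) (a : A) (w : List (Letter G₀ X)) :
    sides σ a w = (sides σ 1 w).map fun s => (s.1, a * s.2) := by
  have := sides_smul σ a 1 w
  rwa [mul_one] at this

/-- a side comes from a letter of the word -/
theorem split_of_sides (σ : Base G₀ X →* A) (a : A) (w : List (Letter G₀ X)) (s : X × A)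
    (l₁ l₂ : List (X × A)) (h : sides σ a w = l₁ ++ s :: l₂) :
    ∃ (w₁ w₂ : List (Letter G₀ X)) (b : Bool), w = w₁ ++ .inr (s.1, b) :: w₂ ∧
      sides σ a w₁ = l₁ ∧ s.2 = (if b then a * σ (val w₁) else a * σ (val w₁) * (σ (gen G₀ s.1))⁻¹) ∧
      sides σ (a * σ (val w₁) * σ (lval (.inr (s.1, b) : Letter G₀ X))) w₂ = l₂ := by
  induction w generalizing a l₁ with
  | nil => simp [sides] at h
  | cons l w ih =>
    rcases l with g | ⟨x, _ | _⟩
    · simp only [sides] at h
      obtain ⟨w₁, w₂, b, h1, h2, h3, h4⟩ := ih _ _ h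
      refine ⟨.inl g :: w₁, w₂, b, by rw [h1]; rfl, by simp only [sides]; exact h2, ?_, ?_⟩
      · rw [h3, val_cons, map_mul, ← mul_assoc]; rfl
      · rw [val_cons, map_mul, ← mul_assoc]; exact h4
    · simp only [sides] at h
      rcases l₁ with _ | ⟨t, l₁⟩
      · rw [List.nil_append, List.cons.injEq] at h
        obtain ⟨h1, h2⟩ := h
        refine ⟨[], w, false, ?_, rfl, ?_, ?_⟩
        · rw [← h1]; rfl
        · rw [← h1, val_nil, map_one, mul_one]; rfl
        · rw [← h1, val_nil, map_one, mul_one, ← h2]
          show sides σ (a * σ (gen G₀ x)⁻¹) w = _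
          rw [map_inv]
      · rw [List.cons_append, List.cons.injEq] at h
        obtain ⟨h0, h⟩ := h
        obtain ⟨w₁, w₂, b, h1, h2, h3, h4⟩ := ih _ _ h
        have hv : σ (lval (.inr (x, false) : Letter G₀ X)) = (σ (gen G₀ x))⁻¹ := by
          show σ (gen G₀ x)⁻¹ = _
          rw [map_inv]
        refine ⟨.inr (x, false) :: w₁, w₂, b, by rw [h1]; rfl, ?_, ?_, ?_⟩
        · simp only [sides]; rw [h2, h0]
        · rw [h3, val_cons, map_mul, ← mul_assoc, hv]
        · rw [val_cons, map_mul, ← mul_assoc, hv]; exact h4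
    · simp only [sides] at h
      rcases l₁ with _ | ⟨t, l₁⟩
      · rw [List.nil_append, List.cons.injEq] at h
        obtain ⟨h1, h2⟩ := h
        refine ⟨[], w, true, ?_, rfl, ?_, ?_⟩
        · rw [← h1]; rfl
        · rw [← h1, val_nil, map_one, mul_one]; rfl
        · rw [← h1, val_nil, map_one, mul_one, ← h2]
          rfl
      · rw [List.cons_append, List.cons.injEq] at h
        obtain ⟨h0, h⟩ := h
        obtain ⟨w₁, w₂, b, h1, h2, h3, h4⟩ := ih _ _ h
        refine ⟨.inr (x, true) :: w₁, w₂, b, by rw [h1]; rfl, ?_, ?_, ?_⟩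
        · simp only [sides]; rw [h2, h0]
        · rw [h3, val_cons, map_mul, ← mul_assoc]; rfl
        · rw [val_cons, map_mul, ← mul_assoc]; exact h4

end basic

/-! ### Cocycles -/

/-- A cocycle on the covering belonging to `σ`, with values in the free product, over the identity
of the group and trivial on the coefficient group. -/
structure Coc {G₀ X R A : Type} [Group G₀] [Group A] (r : R → List (Letter G₀ X))
    (ρ : Grp r →* A) where
  c : A → Base G₀ X → Base G₀ X
  mul : ∀ a w w', c a (w * w') = c a w * c (a * ρ (pr r w)) w'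
  pr_c : ∀ a w, pr r (c a w) = pr r w
  c_inl : ∀ a g, c a (Coprod.inl g) = Coprod.inl g

namespace Coc

variable {G₀ X R A : Type} [Group G₀] [Group A] {r : R → List (Letter G₀ X)} {ρ : Grp r →* A}

theorem one (C : Coc r ρ) (a : A) : C.c a 1 = 1 := by
  have h := C.mul a 1 1
  rw [mul_one, map_one, map_one, mul_one] at h
  exact (mul_eq_left.1 h.symm)

theorem inv (C : Coc r ρ) (a : A) (w : Base G₀ X) :
    C.c a w⁻¹ = (C.c (a * (ρ (pr r w))⁻¹) w)⁻¹ := by
  have h := C.mul a w⁻¹ w
  rw [inv_mul_cancel, C.one, map_inv, map_inv] at h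
  exact eq_inv_of_mul_eq_one_left h.symm

/-- the trivial cocycle -/
def triv (r : R → List (Letter G₀ X)) (ρ : Grp r →* A) : Coc r ρ :=
  ⟨fun _ w => w, fun _ _ _ => rfl, fun _ _ => rfl, fun _ _ => rfl⟩

/-- composition -/
def comp (C D : Coc r ρ) : Coc r ρ where
  c a w := C.c a (D.c a w)
  mul a w w' := by rw [D.mul, C.mul, D.pr_c]
  pr_c a w := by rw [C.pr_c, D.pr_c]
  c_inl a g := by rw [D.c_inl, C.c_inl]

/-- a cocycle which fixes all sides of a path fixes the value of the path -/
theorem fix (C : Coc r ρ) (a : A) (w : List (Letter G₀ X))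
    (h : ∀ s ∈ sides (ρ.comp (pr r)) a w, C.c s.2 (gen G₀ s.1) = gen G₀ s.1) :
    C.c a (val w) = val w := by
  induction w generalizing a with
  | nil => rw [val_nil, C.one]
  | cons l w ih =>
    rcases l with g | ⟨x, _ | _⟩
    · simp only [sides] at h
      rw [val_cons, C.mul, show lval (.inl g : Letter G₀ X) = Coprod.inl g from rfl, C.c_inl]
      congr 1
      exact ih _ h
    · simp only [sides, List.mem_cons, forall_eq_or_imp] at h
      rw [val_cons, C.mul, show lval (.inr (x, false) : Letter G₀ X) = (gen G₀ x)⁻¹ from rfl,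
        C.inv]
      have h1 := h.1
      simp only [MonoidHom.comp_apply] at h1
      rw [h1, map_inv, map_inv]
      congr 1
      exact ih _ h.2
    · simp only [sides, List.mem_cons, forall_eq_or_imp] at h
      rw [val_cons, C.mul, show lval (.inr (x, true) : Letter G₀ X) = gen G₀ x from rfl, h.1]
      congr 1
      exact ih _ h.2

end Coc

/-- translations of functions -/
def shiftAut (A Y : Type) [Group A] [Group Y] : A →* MulAut (A → Y) where
  toFun g :=
    { toFun := fun f a => f (a * g)
      invFun := fun f a => f (a * g⁻¹)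
      left_inv := fun f => by funext a; simp
      right_inv := fun f => by funext a; simp
      map_mul' := fun _ _ => rfl }
  map_one' := by
    ext f a
    show f (a * 1) = f a
    rw [mul_one]
  map_mul' g h := by
    ext f a
    show f (a * (g * h)) = f (a * g * h)
    rw [mul_assoc]

theorem shiftAut_apply {A Y : Type} [Group A] [Group Y] (g : A) (f : A → Y) (a : A) :
    shiftAut A Y g f a = f (a * g) := rfl

section lift

variable {G₀ X R A : Type} [Group G₀] [Group A]

/-- the cocycle with prescribed values on the generators -/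
theorem exists_lift (r : R → List (Letter G₀ X)) (ρ : Grp r →* A) (C : X → A → Base G₀ X)
    (hC : ∀ x a, pr r (C x a) = pr r (gen G₀ x)) :
    ∃ c : Coc r ρ, ∀ x a, c.c a (gen G₀ x) = C x a := by
  let M := (A → Base G₀ X) ⋊[shiftAut A (Base G₀ X)] A
  let f₁ : G₀ →* M :=
    { toFun := fun g => ⟨fun _ => Coprod.inl g, ρ (pr r (Coprod.inl g))⟩
      map_one' := by
        refine SemidirectProduct.ext ?_ ?_
        · funext a
          show (Coprod.inl (1 : G₀) : Base G₀ X) = 1
          rw [map_one]
        · show ρ (pr r (Coprod.inl (1 : G₀))) = 1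
          rw [map_one, map_one, map_one]
      map_mul' := fun g h => by
        refine SemidirectProduct.ext ?_ ?_
        · funext a
          show (Coprod.inl (g * h) : Base G₀ X) = Coprod.inl g * Coprod.inl h
          rw [map_mul]
        · show ρ (pr r (Coprod.inl (g * h))) = ρ (pr r (Coprod.inl g)) * ρ (pr r (Coprod.inl h))
          rw [map_mul, map_mul, map_mul] }
  let f₂ : FreeGroup X →* M := FreeGroup.lift (fun x => ⟨C x, ρ (pr r (gen G₀ x))⟩)
  have hf₂ : ∀ x, f₂ (FreeGroup.of x) = ⟨C x, ρ (pr r (gen G₀ x))⟩ :=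
    fun x => FreeGroup.lift_apply_of
  let Φ : Base G₀ X →* M := Coprod.lift f₁ f₂
  have hr : ∀ w, (Φ w).right = ρ (pr r w) := by
    intro w
    have h : (SemidirectProduct.rightHom.comp Φ) = ρ.comp (pr r) := by
      apply Coprod.hom_ext
      · ext g
        simp only [MonoidHom.comp_apply, SemidirectProduct.rightHom_eq_right]
        show (Coprod.lift f₁ f₂ (Coprod.inl g)).right = _
        rw [Coprod.lift_apply_inl]
        rfl
      · ext x
        simp only [MonoidHom.comp_apply, SemidirectProduct.rightHom_eq_right]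
        show (Coprod.lift f₁ f₂ (Coprod.inr (FreeGroup.of x))).right = _
        rw [Coprod.lift_apply_inr, hf₂]
        rfl
    exact DFunLike.congr_fun h w
  have hinl : ∀ g a, (Φ (Coprod.inl g)).left a = Coprod.inl g := by
    intro g a
    show (Coprod.lift f₁ f₂ (Coprod.inl g)).left a = _
    rw [Coprod.lift_apply_inl]
    rfl
  have hof : ∀ x a, (Φ (gen G₀ x)).left a = C x a := by
    intro x a
    show (Coprod.lift f₁ f₂ (Coprod.inr (FreeGroup.of x))).left a = _
    rw [Coprod.lift_apply_inr, hf₂]
  have hmul : ∀ a w w', (Φ (w * w')).left a = (Φ w).left a * (Φ w').left (a * ρ (pr r w)) := by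
    intro a w w'
    rw [map_mul, SemidirectProduct.mul_left, Pi.mul_apply, shiftAut_apply, hr]
  have hone : ∀ a, (Φ 1).left a = 1 := by
    intro a
    rw [map_one]; rfl
  have hinv : ∀ a w, (Φ w⁻¹).left a = ((Φ w).left (a * (ρ (pr r w))⁻¹))⁻¹ := by
    intro a w
    have h := hmul a w⁻¹ w
    have h2 : ρ (pr r w⁻¹) = (ρ (pr r w))⁻¹ := by rw [map_inv, map_inv]
    rw [inv_mul_cancel, hone, h2] at h
    exact eq_inv_of_mul_eq_one_left h.symm
  have hmkr : ∀ (w : FreeGroup X) a, pr r ((Φ (Coprod.inr w)).left a) = pr r (Coprod.inr w) := by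
    intro w
    refine FreeGroup.induction_on
      (C := fun w => ∀ a, pr r ((Φ (Coprod.inr w)).left a) = pr r (Coprod.inr w)) w ?_ ?_ ?_ ?_
    · intro a; rw [map_one, hone]
    · intro x a
      have := hof x a
      unfold gen at this
      rw [this, hC]; rfl
    · intro x h a
      have e : (Coprod.inr (FreeGroup.of x)⁻¹ : Base G₀ X) = (Coprod.inr (FreeGroup.of x))⁻¹ :=
        map_inv _ _
      rw [e, hinv, map_inv, map_inv, h]
    · intro x y hx hy a
      have e : (Coprod.inr (x * y) : Base G₀ X) = Coprod.inr x * Coprod.inr y := map_mul _ _ _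
      rw [e, hmul, map_mul, map_mul, hx, hy]
  have hmk : ∀ w a, pr r ((Φ w).left a) = pr r w := by
    intro w
    induction w using Coprod.induction_on with
    | inl g => intro a; rw [hinl]
    | inr w => exact hmkr w
    | mul x y hx hy => intro a; rw [hmul, map_mul, map_mul, hx, hy]
  exact ⟨⟨fun a w => (Φ w).left a, hmul, fun a w => hmk w a, fun a g => hinl g a⟩,
    fun x a => hof x a⟩

theorem exists_coc (r : R → List (Letter G₀ X)) (ρ : Grp r →* A) (hfree : FreeSides r ρ) :
    ∀ (n : ℕ) (S : Finset (R × A)), S.card = n →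
      ∃ C : Coc r ρ, ∀ d ∈ S, C.c d.2 (val (r d.1)) = 1 := by
  classical
  intro n
  induction n with
  | zero =>
    intro S hS
    refine ⟨Coc.triv r ρ, fun d hd => ?_⟩
    rw [Finset.card_eq_zero.1 hS] at hd
    exact absurd hd (Finset.notMem_empty d)
  | succ n ih =>
    intro S hS
    have hne : S.Nonempty := by
      rw [← Finset.card_pos, hS]; exact Nat.succ_pos n
    obtain ⟨d, hd, s, ⟨l₁, l₂, hs, hs1, hs2⟩, hs3⟩ := hfree S hne
    obtain ⟨C₁, hC₁⟩ := ih (S.erase d) (by rw [Finset.card_erase_of_mem hd, hS]; rfl)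
    obtain ⟨w₁, w₂, b, hw, hw1, hsb, hw2⟩ := split_of_sides _ _ _ _ _ _ hs
    -- the side expressed by the other letters of the relator
    obtain ⟨sol, hsol⟩ : ∃ sol : Base G₀ X, sol = if b then (val w₁)⁻¹ * (val w₂)⁻¹
      else val w₂ * val w₁ := ⟨_, rfl⟩
    have hrel : pr r (val w₁) * pr r (lval (.inr (s.1, b) : Letter G₀ X)) * pr r (val w₂) = 1 := by
      have := pr_val r d.1
      rw [hw, val_append, val_cons, map_mul, map_mul, ← mul_assoc] at this
      exact this
    have hprsol : pr r sol = pr r (gen G₀ s.1) := by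
      rw [hsol]
      cases b with
      | true =>
        have h1 : pr r (val w₁) * pr r (gen G₀ s.1) * pr r (val w₂) = 1 := hrel
        simp only [if_true, map_mul, map_inv]
        rw [mul_eq_one_iff_eq_inv] at h1
        rw [← h1, inv_mul_cancel_left]
      | false =>
        have h1 : pr r (val w₁) * pr r (gen G₀ s.1)⁻¹ * pr r (val w₂) = 1 := hrel
        simp only [Bool.false_eq_true, if_false, map_mul]
        rw [map_inv, mul_assoc, mul_eq_one_iff_eq_inv'] at h1
        have h2 : pr r (val w₂) = pr r (gen G₀ s.1) * (pr r (val w₁))⁻¹ :=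
          inv_mul_eq_iff_eq_mul.1 h1
        rw [h2, mul_assoc, inv_mul_cancel, mul_one]
    obtain ⟨D, hD⟩ := exists_lift r ρ (fun x a => if (x, a) = s then sol else gen G₀ x) (by
        intro x a
        split_ifs with h
        · rw [hprsol, ← h]
        · rfl)
    have hself : D.c s.2 (gen G₀ s.1) = sol := by
      rw [hD, if_pos rfl]
    have hfix : ∀ (a : A) (w : List (Letter G₀ X)), s ∉ sides (ρ.comp (pr r)) a w →
        D.c a (val w) = val w := by
      intro a w h
      apply D.fix
      intro t ht
      rw [hD, if_neg]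
      intro h1
      exact h (h1 ▸ ht)
    refine ⟨C₁.comp D, fun d' hd' => ?_⟩
    show C₁.c d'.2 (D.c d'.2 (val (r d'.1))) = 1
    by_cases hdd : d' = d
    · have h1 : D.c d'.2 (val (r d'.1)) = 1 := by
        rw [hdd, hw, val_append, val_cons, D.mul, D.mul]
        rw [hfix _ w₁ (by rw [hw1]; exact hs1), hfix _ w₂ (by
          have h := hs2
          rw [← hw2] at h
          exact h)]
        have hmid : D.c (d.2 * ρ (pr r (val w₁))) (lval (.inr (s.1, b) : Letter G₀ X)) =
            (val w₁)⁻¹ * (val w₂)⁻¹ := by
          cases b with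
          | true =>
            have h1 : s.2 = d.2 * ρ (pr r (val w₁)) := by
              rw [hsb]; rfl
            show D.c _ (gen G₀ s.1) = _
            rw [← h1, hself, hsol]
            rfl
          | false =>
            have h1 : s.2 = d.2 * ρ (pr r (val w₁)) * (ρ (pr r (gen G₀ s.1)))⁻¹ := by
              rw [hsb]; rfl
            show D.c _ (gen G₀ s.1)⁻¹ = _
            rw [D.inv, ← h1, hself, hsol]
            simp only [Bool.false_eq_true, if_false]
            rw [mul_inv_rev]
        rw [hmid]
        group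
      rw [h1, C₁.one]
    · rw [hfix _ _ (hs3 d' hd' hdd)]
      exact hC₁ d' (Finset.mem_erase.2 ⟨hdd, hd'⟩)

theorem exists_cells (r : R → List (Letter G₀ X)) (ρ : Grp r →* A) (w : Base G₀ X)
    (hw : w ∈ Subgroup.normalClosure (Set.range fun e => val (r e))) :
    ∀ a : A, ∃ S : Finset (R × A), ∀ C : Coc r ρ, (∀ d ∈ S, C.c d.2 (val (r d.1)) = 1) →
      C.c a w = 1 := by
  classical
  have hw' : w ∈ Subgroup.closure (Group.conjugatesOfSet (Set.range fun e => val (r e))) := hw
  induction hw' using Subgroup.closure_induction with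
  | mem x hx =>
    intro a
    obtain ⟨_, ⟨e, rfl⟩, hr⟩ := Group.mem_conjugatesOfSet_iff.1 hx
    obtain ⟨u, rfl⟩ := isConj_iff.1 hr
    refine ⟨{(e, a * ρ (pr r u))}, fun C hC => ?_⟩
    have h1 := hC (e, a * ρ (pr r u)) (Finset.mem_singleton_self _)
    simp only at h1
    rw [C.mul, C.mul, h1, mul_one, map_mul, pr_val, mul_one, ← C.mul, mul_inv_cancel, C.one]
  | one => exact fun a => ⟨∅, fun C _ => C.one a⟩
  | mul x y hx hy ihx ihy =>
    intro a
    obtain ⟨S, hS⟩ := ihx hx a
    obtain ⟨T, hT⟩ := ihy hy (a * ρ (pr r x))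
    refine ⟨S ∪ T, fun C hC => ?_⟩
    rw [C.mul, hS C fun d hd => hC d (Finset.mem_union_left _ hd),
      hT C fun d hd => hC d (Finset.mem_union_right _ hd), one_mul]
  | inv x hx ihx =>
    intro a
    obtain ⟨S, hS⟩ := ihx hx (a * (ρ (pr r x))⁻¹)
    refine ⟨S, fun C hC => ?_⟩
    rw [C.inv, hS C hC, inv_one]

/-- finitely many elements of the kernel are killed by a cocycle -/
theorem exists_coc_kill (r : R → List (Letter G₀ X)) (ρ : Grp r →* A) (hfree : FreeSides r ρ)
    (T : Finset (Base G₀ X)) (hT : ∀ w ∈ T, pr r w = 1) :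
    ∃ C : Coc r ρ, ∀ w ∈ T, C.c 1 w = 1 := by
  classical
  have hcells : ∀ w ∈ T, ∃ S : Finset (R × A), ∀ C : Coc r ρ,
      (∀ d ∈ S, C.c d.2 (val (r d.1)) = 1) → C.c 1 w = 1 := fun w hw =>
    exists_cells r ρ w (pr_eq_one.1 (hT w hw)) 1
  choose! S hS using hcells
  obtain ⟨C, hC⟩ := exists_coc r ρ hfree _ (T.biUnion S) rfl
  exact ⟨C, fun w hw => hS w hw C fun d hd => hC d (Finset.mem_biUnion.2 ⟨w, hw, hd⟩)⟩

/-- the coefficient group is embedded -/
theorem coef_injective (r : R → List (Letter G₀ X)) (ρ : Grp r →* A) (hfree : FreeSides r ρ) :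
    Function.Injective (coef r) := by
  classical
  rw [injective_iff_map_eq_one]
  intro g hg
  obtain ⟨C, hC⟩ := exists_coc_kill r ρ hfree {Coprod.inl g} (by
    intro w hw
    rw [Finset.mem_singleton.1 hw]
    exact hg)
  have h1 := hC _ (Finset.mem_singleton_self _)
  rw [C.c_inl] at h1
  exact Coprod.inl_injective (h1.trans (map_one _).symm)

end lift

end Pool.Agent.X237.FS
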