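import Pool.Agent.X237.FS.Wlog

/-!
# Relative asphericity

Presentation complexes, the boundary operator from the 2-chains to the 1-chains of the universal
covering, and pairs of presentation complexes.
-/

set_option autoImplicit false

namespace Pool.Agent.X237.FS

open Monoid

section defs

variable {V E A : Type} [Group A]

/-- The group with generators `V` and relators `t e`, words in `V` and the inverses. -/
def PG (t : E → List (V × Bool)) : Type := PresentedGroup (Set.range fun e => FreeGroup.mk (t e))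

instance (t : E → List (V × Bool)) : Group (PG t) :=
  inferInstanceAs (Group (PresentedGroup (Set.range fun e => FreeGroup.mk (t e))))

/-- The projection of the free group to the group of the presentation. -/
def PG.mk (t : E → List (V × Bool)) : FreeGroup V →* PG t :=
  PresentedGroup.mk (Set.range fun e => FreeGroup.mk (t e))

/-- The sides of the lift, starting at `a`, of the path with the word `w`; the side `((v, b), true)`
is the edge from `b` to `b σ(v)`, and `((v, b), false)` is this edge traversed backwards. -/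
def wsides (σ : FreeGroup V →* A) : A → List (V × Bool) → List ((V × A) × Bool)
  | _, [] => []
  | a, (v, true) :: w => ((v, a), true) :: wsides σ (a * σ (FreeGroup.of v)) w
  | a, (v, false) :: w =>
      ((v, a * (σ (FreeGroup.of v))⁻¹), false) :: wsides σ (a * (σ (FreeGroup.of v))⁻¹) w

/-- The boundary operator from the 2-chains to the 1-chains of the covering of the presentation
complex which belongs to `σ`. -/
noncomputable def bdry (σ : FreeGroup V →* A) (t : E → List (V × Bool)) (c : (E × A) →₀ ℤ) :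
    (V × A) →₀ ℤ :=
  c.sum fun d n => ((wsides σ d.2 (t d.1)).map fun s =>
    Finsupp.single s.1 (if s.2 then n else -n)).sum

/-- The presentation complex is aspherical: its universal covering has no 2-dimensional cycles
except `0` (that is, its second homology group, which is `π₂`, is trivial). -/
def Aspherical (t : E → List (V × Bool)) : Prop :=
  ∀ c : (E × PG t) →₀ ℤ, bdry (PG.mk t) t c = 0 → c = 0

end defs

section pairs

variable {V₀ E₀ X R : Type}

/-- The presentation with the generators `V₀ ⊔ X` and the relators `s₀`, which are words in `V₀`,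
and `s`. -/
def join (s₀ : E₀ → List (V₀ × Bool)) (s : R → List ((V₀ ⊕ X) × Bool)) :
    E₀ ⊕ R → List ((V₀ ⊕ X) × Bool) :=
  Sum.elim (fun e => (s₀ e).map (Prod.map Sum.inl id)) s

/-- A letter as a letter over the group of `s₀`. -/
def letter (s₀ : E₀ → List (V₀ × Bool)) : (V₀ ⊕ X) × Bool → Letter (PG s₀) X
  | (.inl v, b) => .inl (PG.mk s₀ (FreeGroup.mk [(v, b)]))
  | (.inr x, b) => .inr (x, b)

/-- The relators `s` as words over the group of `s₀`. -/
def relWords (s₀ : E₀ → List (V₀ × Bool)) (s : R → List ((V₀ ⊕ X) × Bool)) (e : R) :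
    List (Letter (PG s₀) X) := (s e).map (letter s₀)

theorem PG.mk_rel {V E : Type} (t : E → List (V × Bool)) (e : E) :
    PG.mk t (FreeGroup.mk (t e)) = 1 :=
  PresentedGroup.one_of_mem ⟨e, rfl⟩

theorem PG.exists_lift {V E K : Type} [Group K] (t : E → List (V × Bool)) (f : FreeGroup V →* K)
    (hf : ∀ e, f (FreeGroup.mk (t e)) = 1) :
    ∃ F : PG t →* K, ∀ w, F (PG.mk t w) = f w := by
  have h : ∀ w ∈ Set.range (fun e => FreeGroup.mk (t e)),
      FreeGroup.lift (fun v => f (FreeGroup.of v)) w = 1 := by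
    rintro _ ⟨e, rfl⟩
    have : FreeGroup.lift (fun v => f (FreeGroup.of v)) = f := by ext v; simp
    rw [this]; exact hf e
  refine ⟨PresentedGroup.toGroup h, fun w => ?_⟩
  have : ((PresentedGroup.toGroup h : PG t →* K).comp (PG.mk t)) = f := by
    ext v
    exact PresentedGroup.toGroup.of h
  exact DFunLike.congr_fun this w

theorem mk_map_inl (w : List (V₀ × Bool)) :
    (FreeGroup.mk (w.map (Prod.map (Sum.inl : V₀ → V₀ ⊕ X) id)) : FreeGroup (V₀ ⊕ X)) =
      FreeGroup.map Sum.inl (FreeGroup.mk w) := by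
  rw [FreeGroup.map.mk]
  rfl

theorem incl_aux (s₀ : E₀ → List (V₀ × Bool)) (s : R → List ((V₀ ⊕ X) × Bool)) :
    ∀ w ∈ Set.range (fun e => FreeGroup.mk (s₀ e)),
      FreeGroup.lift (fun v => PG.mk (join s₀ s) (FreeGroup.of (Sum.inl v))) w = 1 := by
  rintro _ ⟨e, rfl⟩
  have : FreeGroup.lift (fun v => PG.mk (join s₀ s) (FreeGroup.of (Sum.inl v))) =
      (PG.mk (join s₀ s)).comp (FreeGroup.map Sum.inl) := by ext v; simp
  rw [this, MonoidHom.comp_apply, ← mk_map_inl]
  exact PG.mk_rel (join s₀ s) (Sum.inl e)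

/-- The homomorphism of the groups induced by the inclusion. -/
def incl (s₀ : E₀ → List (V₀ × Bool)) (s : R → List ((V₀ ⊕ X) × Bool)) :
    PG s₀ →* PG (join s₀ s) :=
  PresentedGroup.toGroup (incl_aux s₀ s)

theorem incl_mk (s₀ : E₀ → List (V₀ × Bool)) (s : R → List ((V₀ ⊕ X) × Bool))
    (w : FreeGroup V₀) :
    incl s₀ s (PG.mk s₀ w) = PG.mk (join s₀ s) (FreeGroup.map Sum.inl w) := by
  have h : (incl s₀ s).comp (PG.mk s₀) = (PG.mk (join s₀ s)).comp (FreeGroup.map Sum.inl) := by
    ext v
    exact PresentedGroup.toGroup.of (incl_aux s₀ s)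
  exact DFunLike.congr_fun h w

/-- the homomorphism to the group of the relative presentation -/
theorem exists_phi (s₀ : E₀ → List (V₀ × Bool)) (s : R → List ((V₀ ⊕ X) × Bool)) :
    ∃ φ : PG (join s₀ s) →* Grp (relWords s₀ s),
      (∀ g, φ (incl s₀ s g) = coef (relWords s₀ s) g) ∧
      ∀ l : (V₀ ⊕ X) × Bool, φ (PG.mk (join s₀ s) (FreeGroup.mk [l])) =
        pr (relWords s₀ s) (lval (letter s₀ l)) := by
  let f : FreeGroup (V₀ ⊕ X) →* Grp (relWords s₀ s) := FreeGroup.lift (Sum.elim
    (fun v => coef (relWords s₀ s) (PG.mk s₀ (FreeGroup.of v)))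
    (fun x => pr (relWords s₀ s) (gen (PG s₀) x)))
  have f1 : ∀ w : FreeGroup V₀, f (FreeGroup.map Sum.inl w) =
      coef (relWords s₀ s) (PG.mk s₀ w) := by
    intro w
    have : f.comp (FreeGroup.map Sum.inl) = (coef (relWords s₀ s)).comp (PG.mk s₀) := by
      ext v
      simp [f]
    exact DFunLike.congr_fun this w
  have f2 : ∀ l : (V₀ ⊕ X) × Bool, f (FreeGroup.mk [l]) =
      pr (relWords s₀ s) (lval (letter s₀ l)) := by
    rintro ⟨v | x, b⟩
    · have h := f1 (FreeGroup.mk [(v, b)])
      rw [FreeGroup.map.mk] at h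
      exact h
    · have h : f (FreeGroup.of (Sum.inr x)) = pr (relWords s₀ s) (gen (PG s₀) x) :=
        FreeGroup.lift_apply_of
      cases b with
      | true => exact h
      | false =>
        have e : (FreeGroup.mk [((Sum.inr x : V₀ ⊕ X), false)] : FreeGroup (V₀ ⊕ X)) =
            (FreeGroup.of (Sum.inr x))⁻¹ := rfl
        rw [e, map_inv, h, ← map_inv]
        rfl
  have f3 : ∀ w : List ((V₀ ⊕ X) × Bool), f (FreeGroup.mk w) =
      pr (relWords s₀ s) (val (w.map (letter s₀))) := by
    intro w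
    induction w with
    | nil =>
      show f 1 = _
      rw [map_one, List.map_nil, val_nil, map_one]
    | cons l w ih =>
      have e : (FreeGroup.mk (l :: w) : FreeGroup (V₀ ⊕ X)) =
          FreeGroup.mk [l] * FreeGroup.mk w := by rw [FreeGroup.mul_mk]; rfl
      rw [e, map_mul, f2, ih, List.map_cons, val_cons, map_mul]
  obtain ⟨φ, hφ⟩ := PG.exists_lift (join s₀ s) f (by
    rintro (e | e)
    · show f (FreeGroup.mk ((s₀ e).map (Prod.map Sum.inl id))) = 1
      rw [mk_map_inl, f1, PG.mk_rel, map_one]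
    · show f (FreeGroup.mk (s e)) = 1
      rw [f3]
      exact pr_val (relWords s₀ s) e)
  refine ⟨φ, ?_, fun l => by rw [hφ, f2]⟩
  intro g
  obtain ⟨w, rfl⟩ : ∃ w, PG.mk s₀ w = g := PresentedGroup.mk_surjective _ g
  rw [incl_mk, hφ, f1]

/-- the inclusion is injective -/
theorem incl_injective {A : Type} [Group A] (s₀ : E₀ → List (V₀ × Bool))
    (s : R → List ((V₀ ⊕ X) × Bool)) (ρ : Grp (relWords s₀ s) →* A)
    (hfree : FreeSides (relWords s₀ s) ρ) : Function.Injective (incl s₀ s) := by
  obtain ⟨φ, h1, -⟩ := exists_phi s₀ s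
  intro g h hgh
  apply coef_injective _ ρ hfree
  rw [← h1, ← h1, hgh]

end pairs

/-! ### Coefficients of the boundary -/

section coefficients

variable {V E A : Type}

open Classical in
/-- the coefficient of an edge in the boundary of a 2-cell -/
noncomputable def cf (L : List ((V × A) × Bool)) (x : V × A) : ℤ :=
  (L.map fun s => if s.1 = x then (if s.2 then 1 else -1) else 0).sum

theorem bdry_apply [Group A] (σ : FreeGroup V →* A) (t : E → List (V × Bool)) (c : (E × A) →₀ ℤ)
    (x : V × A) : bdry σ t c x = c.sum fun d n => n * cf (wsides σ d.2 (t d.1)) x := by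
  classical
  unfold bdry Finsupp.sum
  rw [Finset.sum_apply']
  refine Finset.sum_congr rfl fun d _ => ?_
  show ((wsides σ d.2 (t d.1)).map fun s =>
    Finsupp.single s.1 (if s.2 then c d else -(c d))).sum x = c d * cf (wsides σ d.2 (t d.1)) x
  generalize wsides σ d.2 (t d.1) = L
  induction L with
  | nil => simp [cf]
  | cons s L ih =>
    rw [List.map_cons, List.sum_cons, Finsupp.add_apply, ih]
    unfold cf
    rw [List.map_cons, List.sum_cons, mul_add]
    congr 1
    rw [Finsupp.single_apply]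
    split_ifs <;> simp

theorem cf_eq_zero (L : List ((V × A) × Bool)) (x : V × A) (h : x ∉ L.map Prod.fst) :
    cf L x = 0 := by
  classical
  unfold cf
  apply List.sum_eq_zero
  intro n hn
  obtain ⟨s, hs, rfl⟩ := List.mem_map.1 hn
  rw [if_neg]
  intro h1
  exact h (List.mem_map.2 ⟨s, hs, h1⟩)

theorem cf_append (L L' : List ((V × A) × Bool)) (x : V × A) :
    cf (L ++ L') x = cf L x + cf L' x := by
  classical
  unfold cf
  rw [List.map_append, List.sum_append]

theorem cf_once (L : List ((V × A) × Bool)) (x : V × A) (l₁ l₂ : List (V × A))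
    (h : L.map Prod.fst = l₁ ++ x :: l₂) (h1 : x ∉ l₁) (h2 : x ∉ l₂) : cf L x ≠ 0 := by
  classical
  obtain ⟨L₁, L₂', rfl, rfl, h4⟩ := List.map_eq_append_iff.1 h
  obtain ⟨s, L₂, rfl, hs, rfl⟩ := List.map_eq_cons_iff.1 h4
  have e : L₁ ++ s :: L₂ = L₁ ++ ([s] ++ L₂) := rfl
  rw [e, cf_append, cf_append, cf_eq_zero L₁ x h1, cf_eq_zero L₂ x h2]
  unfold cf
  simp only [List.map_cons, List.map_nil, List.sum_cons, List.sum_nil]
  rw [if_pos hs]
  split_ifs <;> simp

/-- the coefficients are transported by injective equivariant maps -/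
theorem cf_map {V' B : Type} (L : List ((V × A) × Bool)) (j : V × A → V' × B)
    (hj : Function.Injective j) (x : V × A) :
    cf (L.map fun s => (j s.1, s.2)) (j x) = cf L x := by
  classical
  unfold cf
  rw [List.map_map]
  congr 1
  apply List.map_congr_left
  intro s _
  simp only [Function.comp_apply, hj.eq_iff]

end coefficients

/-- translation of sides -/
theorem wsides_smul {V A : Type} [Group A] (σ : FreeGroup V →* A) (h a : A)
    (w : List (V × Bool)) :
    wsides σ (h * a) w = (wsides σ a w).map fun s => ((s.1.1, h * s.1.2), s.2) := by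
  induction w generalizing a with
  | nil => rfl
  | cons l w ih =>
    rcases l with ⟨v, _ | _⟩
    · simp only [wsides, List.map_cons]
      rw [mul_assoc, ih]
    · simp only [wsides, List.map_cons]
      rw [mul_assoc, ih]

section pairs2

variable {V₀ E₀ X R : Type}

/-- the sides of the old 2-cells -/
theorem wsides_old {A B : Type} [Group A] [Group B] (σ₀ : FreeGroup V₀ →* A)
    (σ : FreeGroup (V₀ ⊕ X) →* B) (i : A →* B)
    (hi : ∀ w, σ (FreeGroup.map Sum.inl w) = i (σ₀ w)) (g : B) (a : A) (w : List (V₀ × Bool)) :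
    wsides σ (g * i a) (w.map (Prod.map Sum.inl id)) =
      (wsides σ₀ a w).map fun s => ((Sum.inl s.1.1, g * i s.1.2), s.2) := by
  have hof : ∀ v, σ (FreeGroup.of (Sum.inl v)) = i (σ₀ (FreeGroup.of v)) := by
    intro v
    rw [← hi, FreeGroup.map.of]
  induction w generalizing a with
  | nil => rfl
  | cons l w ih =>
    rcases l with ⟨v, _ | _⟩
    · have e : ((v, false) :: w).map (Prod.map (Sum.inl : V₀ → V₀ ⊕ X) id) =
          (Sum.inl v, false) :: w.map (Prod.map Sum.inl id) := rfl
      rw [e]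
      simp only [wsides, List.map_cons]
      rw [hof, ← map_inv, mul_assoc, ← map_mul, ih]
    · have e : ((v, true) :: w).map (Prod.map (Sum.inl : V₀ → V₀ ⊕ X) id) =
          (Sum.inl v, true) :: w.map (Prod.map Sum.inl id) := rfl
      rw [e]
      simp only [wsides, List.map_cons]
      rw [hof, mul_assoc, ← map_mul, ih]

/-- the new sides of the new 2-cells -/
theorem sides_new {A : Type} [Group A] (s₀ : E₀ → List (V₀ × Bool))
    (s : R → List ((V₀ ⊕ X) × Bool)) (ρ : Grp (relWords s₀ s) →* A)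
    (φ : PG (join s₀ s) →* Grp (relWords s₀ s))
    (hφ : ∀ l : (V₀ ⊕ X) × Bool, φ (PG.mk (join s₀ s) (FreeGroup.mk [l])) =
        pr (relWords s₀ s) (lval (letter s₀ l)))
    (g : PG (join s₀ s)) (w : List ((V₀ ⊕ X) × Bool)) :
    sides (ρ.comp (pr (relWords s₀ s))) (ρ (φ g)) (w.map (letter s₀)) =
      ((wsides (PG.mk (join s₀ s)) g w).map Prod.fst).filterMap
        (fun p => p.1.elim (fun _ => none) fun x => some (x, ρ (φ p.2))) := by
  induction w generalizing g with
  | nil => rfl
  | cons l w ih =>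
    rcases l with ⟨v | x, b⟩
    · have h1 := hφ (Sum.inl v, b)
      have h2 : sides (ρ.comp (pr (relWords s₀ s))) (ρ (φ g))
          (((Sum.inl v, b) :: w).map (letter s₀)) =
          sides (ρ.comp (pr (relWords s₀ s)))
            (ρ (φ (g * PG.mk (join s₀ s) (FreeGroup.mk [(Sum.inl v, b)])))) (w.map (letter s₀)) := by
        rw [List.map_cons, map_mul, map_mul, h1]
        rfl
      rw [h2, ih]
      cases b with
      | true => rfl
      | false =>
        have e : (FreeGroup.mk [((Sum.inl v : V₀ ⊕ X), false)] : FreeGroup (V₀ ⊕ X)) =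
          (FreeGroup.of (Sum.inl v))⁻¹ := rfl
        rw [e, map_inv]
        rfl
    · have hx : ρ (φ (PG.mk (join s₀ s) (FreeGroup.of (Sum.inr x)))) =
          ρ (pr (relWords s₀ s) (gen (PG s₀) x)) := congrArg ρ (hφ (Sum.inr x, true))
      cases b with
      | true =>
        have e : ((Sum.inr x, true) :: w).map (letter s₀) =
          (.inr (x, true) : Letter (PG s₀) X) :: w.map (letter s₀) := rfl
        rw [e]
        simp only [sides, wsides, List.map_cons]
        rw [MonoidHom.comp_apply, ← hx, ← map_mul, ← map_mul, ih]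
        rfl
      | false =>
        have e : ((Sum.inr x, false) :: w).map (letter s₀) =
          (.inr (x, false) : Letter (PG s₀) X) :: w.map (letter s₀) := rfl
        rw [e]
        simp only [sides, wsides, List.map_cons]
        rw [MonoidHom.comp_apply, ← hx, ← map_inv, ← map_inv, ← map_mul, ← map_mul, ih]
        rfl

/-- free sides in the universal covering -/
theorem free_univ {A : Type} [Group A] (s₀ : E₀ → List (V₀ × Bool))
    (s : R → List ((V₀ ⊕ X) × Bool)) (ρ : Grp (relWords s₀ s) →* A)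
    (hfree : FreeSides (relWords s₀ s) ρ) (S : Finset (R × PG (join s₀ s))) (hS : S.Nonempty) :
    ∃ d ∈ S, ∃ (x : X) (g : PG (join s₀ s)) (l₁ l₂ : List ((V₀ ⊕ X) × PG (join s₀ s))),
      (wsides (PG.mk (join s₀ s)) d.2 (s d.1)).map Prod.fst = l₁ ++ (Sum.inr x, g) :: l₂ ∧
      (Sum.inr x, g) ∉ l₁ ∧ (Sum.inr x, g) ∉ l₂ ∧
      ∀ d' ∈ S, d' ≠ d → (Sum.inr x, g) ∉ (wsides (PG.mk (join s₀ s)) d'.2 (s d'.1)).map Prod.fst := by
  classical
  obtain ⟨φ, -, hφ⟩ := exists_phi s₀ s
  obtain ⟨dd, hd1, ⟨x, a⟩, ⟨l₁, l₂, h1, h2, h3⟩, h4⟩ :=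
    hfree (S.image fun d => (d.1, ρ (φ d.2))) (hS.image _)
  obtain ⟨⟨e, g⟩, hd, rfl⟩ := Finset.mem_image.1 hd1
  simp only at h1
  have h5 := sides_new s₀ s ρ φ hφ g (s e)
  have h6 : relWords s₀ s e = (s e).map (letter s₀) := rfl
  rw [h6, h5, List.filterMap_eq_append_iff] at h1
  obtain ⟨L₁, L₂, hL, hL₁, hL₂⟩ := h1
  rw [List.filterMap_eq_cons_iff] at hL₂
  obtain ⟨M₁, p, M₂, hM, hM1, hp, hM2⟩ := hL₂
  rcases p with ⟨v | y, b⟩
  · simp at hp
  · simp only [Sum.elim_inr, Option.some.injEq, Prod.mk.injEq] at hp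
    obtain ⟨rfl, rfl⟩ := hp
    have hnot : ∀ (L : List ((V₀ ⊕ X) × PG (join s₀ s))) (l : List (X × A)),
        L.filterMap (fun p => p.1.elim (fun _ => none) fun x => some (x, ρ (φ p.2))) = l →
        (y, ρ (φ b)) ∉ l → ((Sum.inr y : V₀ ⊕ X), b) ∉ L := by
      intro L l hl hn hm
      apply hn
      rw [← hl, List.mem_filterMap]
      exact ⟨_, hm, rfl⟩
    refine ⟨(e, g), hd, y, b, L₁ ++ M₁, M₂, ?_, ?_, ?_, ?_⟩
    · simp only
      rw [hL, hM, List.append_assoc]
    · rw [List.mem_append]
      rintro (h | h)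
      · exact hnot _ _ hL₁ h2 h
      · have := hM1 _ h
        simp at this
    · exact hnot _ _ hM2 h3
    · rintro ⟨e', g'⟩ hd' hne hm
      simp only at hm
      have h7 : (y, ρ (φ b)) ∈ sides (ρ.comp (pr (relWords s₀ s))) (ρ (φ g')) (relWords s₀ s e') := by
        have h8 : relWords s₀ s e' = (s e').map (letter s₀) := rfl
        rw [h8, sides_new s₀ s ρ φ hφ g' (s e'), List.mem_filterMap]
        exact ⟨_, hm, rfl⟩
      by_cases hee : (e', ρ (φ g')) = (e, ρ (φ g))
      · -- the same 2-cell of the covering: compare the positions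
        simp only [Prod.mk.injEq] at hee
        obtain ⟨rfl, hgg⟩ := hee
        have hg' : g' = (g' * g⁻¹) * g := by group
        rw [hg', wsides_smul, List.map_map, List.mem_map] at hm
        obtain ⟨⟨⟨v, c⟩, b'⟩, hc, hvc⟩ := hm
        simp only [Function.comp_apply, Prod.mk.injEq] at hvc
        obtain ⟨rfl, hcb⟩ := hvc
        have hc' : ((Sum.inr y : V₀ ⊕ X), c) ∈ (wsides (PG.mk (join s₀ s)) g (s e')).map Prod.fst :=
          List.mem_map.2 ⟨_, hc, rfl⟩
        have hρc : ρ (φ c) = ρ (φ b) := by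
          rw [← hcb, map_mul, map_mul, map_mul, map_mul, map_inv, map_inv, hgg, mul_inv_cancel,
            one_mul]
        rw [hL, hM, List.mem_append, List.mem_append, List.mem_cons] at hc'
        have hnot' : ∀ (L : List ((V₀ ⊕ X) × PG (join s₀ s))) (l : List (X × A)),
            L.filterMap (fun p => p.1.elim (fun _ => none) fun x => some (x, ρ (φ p.2))) = l →
            (y, ρ (φ b)) ∉ l → ((Sum.inr y : V₀ ⊕ X), c) ∉ L := by
          intro L l hl hn hm
          apply hn
          rw [← hl, List.mem_filterMap]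
          exact ⟨_, hm, by simp [hρc]⟩
        rcases hc' with h | h | h | h
        · exact hnot' _ _ hL₁ h2 h
        · have := hM1 _ h
          simp at this
        · simp only [Prod.mk.injEq, true_and] at h
          apply hne
          rw [h, mul_eq_right, mul_inv_eq_one] at hcb
          rw [hcb]
        · exact hnot' _ _ hM2 h3 h
      · exact h4 _ (Finset.mem_image_of_mem (fun d : R × PG (join s₀ s) => (d.1, ρ (φ d.2))) hd')
          hee h7

theorem wsides_inl {A : Type} [Group A] (σ : FreeGroup (V₀ ⊕ X) →* A) (a : A)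
    (w : List (V₀ × Bool)) (x : X) (b : A) :
    (Sum.inr x, b) ∉ (wsides σ a (w.map (Prod.map (Sum.inl : V₀ → V₀ ⊕ X) id))).map Prod.fst := by
  induction w generalizing a with
  | nil => simp [wsides]
  | cons l w ih =>
    rcases l with ⟨v, _ | _⟩
    · have e : ((v, false) :: w).map (Prod.map (Sum.inl : V₀ → V₀ ⊕ X) id) =
          (Sum.inl v, false) :: w.map (Prod.map Sum.inl id) := rfl
      rw [e]
      simp only [wsides, List.map_cons, List.mem_cons, Prod.mk.injEq, not_or]
      exact ⟨fun h => by simp at h, ih _⟩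
    · have e : ((v, true) :: w).map (Prod.map (Sum.inl : V₀ → V₀ ⊕ X) id) =
          (Sum.inl v, true) :: w.map (Prod.map Sum.inl id) := rfl
      rw [e]
      simp only [wsides, List.map_cons, List.mem_cons, Prod.mk.injEq, not_or]
      exact ⟨fun h => by simp at h, ih _⟩

/-- asphericity of the large complex -/
theorem asph_join {A : Type} [Group A] (s₀ : E₀ → List (V₀ × Bool))
    (s : R → List ((V₀ ⊕ X) × Bool)) (ρ : Grp (relWords s₀ s) →* A)
    (hfree : FreeSides (relWords s₀ s) ρ) (h0 : Aspherical s₀) : Aspherical (join s₀ s) := by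
  classical
  intro c hc
  -- the new 2-cells
  have hnew : ∀ (e : R) (g : PG (join s₀ s)), c (Sum.inr e, g) = 0 := by
    by_contra hcon
    push Not at hcon
    obtain ⟨e₀, g₀, hcon⟩ := hcon
    let k : R × PG (join s₀ s) → (E₀ ⊕ R) × PG (join s₀ s) := fun d => (Sum.inr d.1, d.2)
    have hk : Function.Injective k := by
      rintro ⟨a, b⟩ ⟨a', b'⟩ h
      simpa [k] using h
    obtain ⟨d, hd, x, g, l₁, l₂, h1, h2, h3, h4⟩ := free_univ s₀ s ρ hfree
      (c.support.preimage k hk.injOn) ⟨(e₀, g₀), by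
        rw [Finset.mem_preimage, Finsupp.mem_support_iff]; exact hcon⟩
    rw [Finset.mem_preimage, Finsupp.mem_support_iff] at hd
    have h5 := bdry_apply (PG.mk (join s₀ s)) (join s₀ s) c (Sum.inr x, g)
    rw [hc, Finsupp.coe_zero, Pi.zero_apply, Finsupp.sum, Finset.sum_eq_single (k d)] at h5
    · rcases mul_eq_zero.1 h5.symm with h6 | h6
      · exact hd h6
      · exact cf_once _ _ _ _ h1 h2 h3 h6
    · rintro ⟨e' | e', g'⟩ hd' hne
      · rw [cf_eq_zero, mul_zero]
        exact wsides_inl _ _ _ _ _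
      · rw [cf_eq_zero, mul_zero]
        refine h4 (e', g') ?_ ?_
        · rw [Finset.mem_preimage]; exact hd'
        · intro h
          exact hne (by rw [← h])
    · intro h
      rw [Finsupp.notMem_support_iff.1 h, zero_mul]
  -- the old 2-cells
  have hinj := incl_injective s₀ s ρ hfree
  by_contra hne
  obtain ⟨⟨e₁, t₁⟩, h1⟩ := Finsupp.support_nonempty_iff.2 hne
  rw [Finsupp.mem_support_iff] at h1
  rcases e₁ with e₁ | e₁
  · let j : E₀ × PG s₀ → (E₀ ⊕ R) × PG (join s₀ s) := fun d => (Sum.inl d.1, t₁ * incl s₀ s d.2)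
    have hj : Function.Injective j := by
      rintro ⟨a, b⟩ ⟨a', b'⟩ h
      simp only [j, Prod.mk.injEq, Sum.inl.injEq, mul_right_inj] at h
      exact Prod.ext h.1 (hinj h.2)
    let j' : V₀ × PG s₀ → (V₀ ⊕ X) × PG (join s₀ s) := fun d => (Sum.inl d.1, t₁ * incl s₀ s d.2)
    have hj' : Function.Injective j' := by
      rintro ⟨a, b⟩ ⟨a', b'⟩ h
      simp only [j', Prod.mk.injEq, Sum.inl.injEq, mul_right_inj] at h
      exact Prod.ext h.1 (hinj h.2)
    let c' := c.comapDomain j hj.injOn
    have hc' : c' ≠ 0 := by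
      intro h
      have h2 : c' (e₁, 1) = 0 := by rw [h]; rfl
      have h3 : c' (e₁, 1) = c (Sum.inl e₁, t₁ * incl s₀ s 1) := rfl
      rw [map_one, mul_one] at h3
      rw [h3] at h2
      exact h1 h2
    apply hc'
    apply h0
    ext x
    rw [bdry_apply, Finsupp.coe_zero, Pi.zero_apply]
    have h5 := bdry_apply (PG.mk (join s₀ s)) (join s₀ s) c (j' x)
    rw [hc, Finsupp.coe_zero, Pi.zero_apply] at h5
    rw [h5]
    unfold Finsupp.sum
    have hcell : ∀ d : E₀ × PG s₀, cf (wsides (PG.mk (join s₀ s)) (j d).2 (join s₀ s (j d).1)) (j' x) =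
        cf (wsides (PG.mk s₀) d.2 (s₀ d.1)) x := by
      intro d
      rw [show wsides (PG.mk (join s₀ s)) (j d).2 (join s₀ s (j d).1) =
        (wsides (PG.mk s₀) d.2 (s₀ d.1)).map fun s => (j' s.1, s.2) from
          wsides_old (PG.mk s₀) (PG.mk (join s₀ s)) (incl s₀ s) (fun w => (incl_mk s₀ s w).symm)
            t₁ d.2 (s₀ d.1)]
      exact cf_map _ j' hj' x
    have hzero : ∀ d ∈ c.support, d ∉ Set.range j →
        c d * cf (wsides (PG.mk (join s₀ s)) d.2 (join s₀ s d.1)) (j' x) = 0 := by
      rintro ⟨e | e, g⟩ hd hr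
      · rw [cf_eq_zero, mul_zero]
        intro hm
        obtain ⟨p, hp, hpx⟩ := List.mem_map.1 hm
        have h6 := wsides_old (PG.mk s₀) (PG.mk (join s₀ s)) (incl s₀ s)
          (fun w => (incl_mk s₀ s w).symm) g 1 (s₀ e)
        rw [map_one, mul_one] at h6
        have h7 : p ∈ wsides (PG.mk (join s₀ s)) g ((s₀ e).map (Prod.map Sum.inl id)) := hp
        rw [h6] at h7
        obtain ⟨q, -, rfl⟩ := List.mem_map.1 h7
        simp only [j', Prod.mk.injEq] at hpx
        apply hr
        refine ⟨(e, x.2 * q.1.2⁻¹), ?_⟩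
        simp only [j, map_mul, map_inv, Prod.mk.injEq, true_and]
        rw [← mul_assoc, ← hpx.2, mul_inv_cancel_right]
      · rw [hnew e g, zero_mul]
    rw [← Finset.sum_preimage j c.support hj.injOn _ hzero]
    refine Finset.sum_congr ?_ fun d _ => ?_
    · rfl
    · rw [hcell]
      rfl
  · exact h1 (hnew e₁ t₁)

/-- asphericity of the small complex -/
theorem asph_sub (s₀ : E₀ → List (V₀ × Bool)) (s : R → List ((V₀ ⊕ X) × Bool))
    (hinj : Function.Injective (incl s₀ s)) (h : Aspherical (join s₀ s)) : Aspherical s₀ := by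
  classical
  intro c hc
  let j : E₀ × PG s₀ → (E₀ ⊕ R) × PG (join s₀ s) := fun d => (Sum.inl d.1, incl s₀ s d.2)
  have hj : Function.Injective j := by
    rintro ⟨a, b⟩ ⟨a', b'⟩ h
    simp only [j, Prod.mk.injEq, Sum.inl.injEq] at h
    exact Prod.ext h.1 (hinj h.2)
  let j' : V₀ × PG s₀ → (V₀ ⊕ X) × PG (join s₀ s) := fun d => (Sum.inl d.1, incl s₀ s d.2)
  have hj' : Function.Injective j' := by
    rintro ⟨a, b⟩ ⟨a', b'⟩ h
    simp only [j', Prod.mk.injEq, Sum.inl.injEq] at h
    exact Prod.ext h.1 (hinj h.2)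
  apply Finsupp.mapDomain_injective hj
  rw [Finsupp.mapDomain_zero]
  apply h
  have hold : ∀ d : E₀ × PG s₀, wsides (PG.mk (join s₀ s)) (j d).2 (join s₀ s (j d).1) =
      (wsides (PG.mk s₀) d.2 (s₀ d.1)).map fun s => (j' s.1, s.2) := by
    intro d
    have h6 := wsides_old (PG.mk s₀) (PG.mk (join s₀ s)) (incl s₀ s)
      (fun w => (incl_mk s₀ s w).symm) 1 d.2 (s₀ d.1)
    rw [one_mul] at h6
    refine h6.trans ?_
    apply List.map_congr_left
    intro s _
    rw [one_mul]
  ext x
  rw [bdry_apply, Finsupp.coe_zero, Pi.zero_apply, Finsupp.sum_mapDomain_index_inj hj]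
  by_cases hx : x ∈ Set.range j'
  · obtain ⟨x, rfl⟩ := hx
    have h5 := bdry_apply (PG.mk s₀) s₀ c x
    rw [hc, Finsupp.coe_zero, Pi.zero_apply] at h5
    rw [h5]
    refine Finset.sum_congr rfl fun d _ => ?_
    simp only
    rw [hold, cf_map _ j' hj']
  · refine Finset.sum_eq_zero fun d _ => ?_
    simp only
    rw [hold, cf_eq_zero, mul_zero]
    intro hm
    rw [List.map_map] at hm
    obtain ⟨p, -, hp⟩ := List.mem_map.1 hm
    exact hx ⟨p.1, hp⟩

end pairs2

end Pool.Agent.X237.FS
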