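import Pool.Agent.X237.FS.Asph

/-!
# Relative asphericity for positive relations
-/

set_option autoImplicit false

namespace Pool.Agent.X237.FS

open Monoid

section words

variable {V₀ E₀ X R : Type}

/-- The word contains no inverses of the generators `X` (it may contain the letters of `V₀` and
their inverses). -/
def PosIn (w : List ((V₀ ⊕ X) × Bool)) : Prop := ∀ x, (Sum.inr x, false) ∉ w

/-- The weight of a word: the sum of the weights of its letters from `X`; letters from `V₀` have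
weight zero. -/
def wtW (ω : X → ℤ) (w : List ((V₀ ⊕ X) × Bool)) : ℤ :=
  (w.map fun l => l.1.elim (fun _ => 0) ω).sum

/-- the letter as a letter of a positive word -/
def toPos (s₀ : E₀ → List (V₀ × Bool)) (l : (V₀ ⊕ X) × Bool) : PG s₀ ⊕ X :=
  l.1.elim (fun v => .inl (PG.mk s₀ (FreeGroup.mk [(v, l.2)]))) .inr

theorem map_letter (s₀ : E₀ → List (V₀ × Bool)) (w : List ((V₀ ⊕ X) × Bool)) (hw : PosIn w) :
    w.map (letter s₀) = pos (w.map (toPos s₀)) := by
  unfold pos
  rw [List.map_map]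
  apply List.map_congr_left
  rintro ⟨v | x, b⟩ hl
  · rfl
  · cases b with
    | true => rfl
    | false => exact absurd hl (hw x)

theorem map_invRev (s₀ : E₀ → List (V₀ × Bool)) (w : List ((V₀ ⊕ X) × Bool)) :
    (FreeGroup.invRev w).map (letter s₀) = winv (w.map (letter s₀)) := by
  induction w with
  | nil => rfl
  | cons l w ih =>
    have e : FreeGroup.invRev (l :: w) = FreeGroup.invRev w ++ [(l.1, !l.2)] := by
      simp [FreeGroup.invRev]
    rw [e, List.map_append, ih]
    rcases l with ⟨v | x, b⟩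
    · simp only [List.map_cons, List.map_nil]
      have h1 : letter s₀ ((.inl v : V₀ ⊕ X), b) = .inl (PG.mk s₀ (FreeGroup.mk [(v, b)])) := rfl
      have h2 : letter s₀ ((.inl v : V₀ ⊕ X), !b) = .inl (PG.mk s₀ (FreeGroup.mk [(v, b)]))⁻¹ := by
        show (Sum.inl (PG.mk s₀ (FreeGroup.mk [(v, !b)])) : Letter (PG s₀) X) = _
        rw [← map_inv]
        rfl
      rw [h1, h2]
      rfl
    · rfl

theorem wt_toPos (s₀ : E₀ → List (V₀ × Bool)) (ω : X → ℤ) (w : List ((V₀ ⊕ X) × Bool)) :
    wt ω (w.map (toPos s₀)) = wtW ω w := by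
  unfold wt wtW
  rw [List.map_map]
  congr 1
  apply List.map_congr_left
  rintro ⟨v | x, b⟩ _
  · rfl
  · rfl

/-- The relator of the relation `u = v`. -/
def eqn (u v : List ((V₀ ⊕ X) × Bool)) : List ((V₀ ⊕ X) × Bool) := u ++ FreeGroup.invRev v

/-- The relators of the relations `x_e u_e = y_e v_e`. -/
def firstW (x y : R → X) (u v : R → List ((V₀ ⊕ X) × Bool)) (e : R) : List ((V₀ ⊕ X) × Bool) :=
  eqn ((Sum.inr (x e), true) :: u e) ((Sum.inr (y e), true) :: v e)

/-- The relators of the relations `u_e x_e = v_e y_e`. -/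
def lastW (x y : R → X) (u v : R → List ((V₀ ⊕ X) × Bool)) (e : R) : List ((V₀ ⊕ X) × Bool) :=
  eqn (u e ++ [(Sum.inr (x e), true)]) (v e ++ [(Sum.inr (y e), true)])

theorem relWords_first (s₀ : E₀ → List (V₀ × Bool)) (x y : R → X)
    (u v : R → List ((V₀ ⊕ X) × Bool)) (hu : ∀ e, PosIn (u e)) (hv : ∀ e, PosIn (v e)) :
    relWords s₀ (firstW x y u v) =
      first x y (fun e => (u e).map (toPos s₀)) (fun e => (v e).map (toPos s₀)) := by
  funext e
  have h : ∀ (z : X) (w : List ((V₀ ⊕ X) × Bool)), PosIn w →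
      (((Sum.inr z : V₀ ⊕ X), true) :: w).map (letter s₀) =
        pos (.inr z :: w.map (toPos s₀)) := by
    intro z w hw
    rw [List.map_cons, map_letter s₀ w hw]
    rfl
  unfold relWords firstW eqn first rel
  rw [List.map_append, map_invRev, h _ _ (hu e), h _ _ (hv e)]

theorem relWords_last (s₀ : E₀ → List (V₀ × Bool)) (x y : R → X)
    (u v : R → List ((V₀ ⊕ X) × Bool)) (hu : ∀ e, PosIn (u e)) (hv : ∀ e, PosIn (v e)) :
    relWords s₀ (lastW x y u v) =
      last x y (fun e => (u e).map (toPos s₀)) (fun e => (v e).map (toPos s₀)) := by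
  funext e
  have h : ∀ (z : X) (w : List ((V₀ ⊕ X) × Bool)), PosIn w →
      (w ++ [((Sum.inr z : V₀ ⊕ X), true)]).map (letter s₀) =
        pos (w.map (toPos s₀) ++ [.inr z]) := by
    intro z w hw
    rw [List.map_append, map_letter s₀ w hw]
    unfold pos
    rw [List.map_append]
    rfl
  unfold relWords lastW eqn last rel
  rw [List.map_append, map_invRev, h _ _ (hu e), h _ _ (hv e)]

/-- free sides for positive relations -/
theorem freeSides_relWords (s₀ : E₀ → List (V₀ × Bool)) (x y : R → X)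
    (u v : R → List ((V₀ ⊕ X) × Bool)) (hu : ∀ e, PosIn (u e)) (hv : ∀ e, PosIn (v e))
    (ω : X → ℤ) (hω : ∀ z, 0 ≤ ω z) (hx : ∀ e, 0 < ω (x e)) (hy : ∀ e, 0 < ω (y e))
    (hwt : ∀ e, ω (x e) + wtW ω (u e) = ω (y e) + wtW ω (v e)) (hF : Forest x y)
    (s : R → List ((V₀ ⊕ X) × Bool)) (hs : s = firstW x y u v ∨ s = lastW x y u v) :
    ∃ ρ : Grp (relWords s₀ s) →* Multiplicative ℤ, FreeSides (relWords s₀ s) ρ := by
  obtain ⟨ρ, -, h⟩ := positive_main (G₀ := PG s₀) ω hω x y (fun e => (u e).map (toPos s₀))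
    (fun e => (v e).map (toPos s₀)) hx hy (fun e => by rw [wt_toPos, wt_toPos, hwt]) hF
    (relWords s₀ s) (by
      rcases hs with rfl | rfl
      · exact Or.inl (relWords_first s₀ x y u v hu hv)
      · exact Or.inr (relWords_last s₀ x y u v hu hv))
  exact ⟨ρ, h⟩

end words

end Pool.Agent.X237.FS
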