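import Pool.Agent.X237.FS.Base
import Pool.Agent.TH625.LOG.LI
import Pool.Agent.X225.Ef.Lin
import Pool.Agent.Helper189.FreeRep

/-!
# The kernel of `ρ` under the condition of free sides
-/

set_option autoImplicit false

namespace Pool.Agent.X237.FS

open Monoid
open Pool.Agent.TH625.LOG (LocInd surj_of_ne free_li exists_finset_hom)

/-! ### Local indicability of `G₀ * F(X)` -/

section coprod

variable {G₀ X : Type} [Group G₀]

/-- the action of `G₀` on the free group on `X × G₀` -/
def actAut (G₀ X : Type) [Group G₀] : G₀ →* MulAut (FreeGroup (X × G₀)) where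
  toFun g := FreeGroup.freeGroupCongr
    { toFun := fun p => (p.1, g * p.2)
      invFun := fun p => (p.1, g⁻¹ * p.2)
      left_inv := fun p => by simp
      right_inv := fun p => by simp }
  map_one' := by
    apply MulEquiv.toMonoidHom_injective
    ext p
    simp [FreeGroup.freeGroupCongr]
  map_mul' g h := by
    apply MulEquiv.toMonoidHom_injective
    ext p
    simp [FreeGroup.freeGroupCongr, mul_assoc]

theorem actAut_of (g : G₀) (p : X × G₀) :
    actAut G₀ X g (FreeGroup.of p) = FreeGroup.of (p.1, g * p.2) := by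
  simp [actAut, FreeGroup.freeGroupCongr]

/-- the embedding of `G₀ * F(X)` in the semidirect product -/
def emb (G₀ X : Type) [Group G₀] : Base G₀ X →* FreeGroup (X × G₀) ⋊[actAut G₀ X] G₀ :=
  Coprod.lift SemidirectProduct.inr
    (FreeGroup.lift fun x => SemidirectProduct.inl (FreeGroup.of (x, 1)))

/-- the left inverse -/
def embInv (G₀ X : Type) [Group G₀] : FreeGroup (X × G₀) ⋊[actAut G₀ X] G₀ →* Base G₀ X :=
  SemidirectProduct.lift
    (FreeGroup.lift fun p => Coprod.inl p.2 * gen G₀ p.1 * (Coprod.inl p.2)⁻¹) Coprod.inl (by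
      intro g
      ext p
      simp only [MonoidHom.comp_apply, MulEquiv.coe_toMonoidHom, actAut_of,
        FreeGroup.lift_apply_of, MulAut.conj_apply, map_mul, mul_inv_rev]
      group)

theorem embInv_emb (w : Base G₀ X) : embInv G₀ X (emb G₀ X w) = w := by
  have h : (embInv G₀ X).comp (emb G₀ X) = MonoidHom.id _ := by
    apply Coprod.hom_ext
    · ext g
      simp [emb, embInv]
    · ext x
      simp [emb, embInv, gen]
  exact DFunLike.congr_fun h w

theorem emb_right (w : Base G₀ X) : (emb G₀ X w).right = Coprod.fst w := by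
  have h : SemidirectProduct.rightHom.comp (emb G₀ X) = Coprod.fst := by
    apply Coprod.hom_ext
    · ext g
      simp [emb]
    · ext x
      simp [emb]
  exact DFunLike.congr_fun h w

theorem li_base (h : LocInd G₀) : LocInd (Base G₀ X) := by
  refine LocInd.ext h (Coprod.fst : Base G₀ X →* G₀) ?_
  intro H hH hne hk
  have hr : ∀ x : H, (emb G₀ X x).right = 1 := by
    intro x
    rw [emb_right]
    exact MonoidHom.mem_ker.1 (hk x.2)
  let f : H →* FreeGroup (X × G₀) := MonoidHom.mk' (fun x => (emb G₀ X x).left) (by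
    intro x y
    show (emb G₀ X ((x * y : H) : Base G₀ X)).left = _
    rw [Subgroup.coe_mul, map_mul, SemidirectProduct.mul_left, hr x, map_one]
    rfl)
  have hf : ∀ x, f x = 1 → x = 1 := by
    intro x hx
    have h1 : emb G₀ X x = 1 := SemidirectProduct.ext hx (hr x)
    have h2 := embInv_emb (G₀ := G₀) (X := X) x
    rw [h1, map_one] at h2
    exact Subtype.ext h2.symm
  have hJ : f.range ≠ ⊥ := by
    intro h0
    apply hne
    rw [Subgroup.eq_bot_iff_forall]
    intro x hx
    have h1 : f ⟨x, hx⟩ ∈ f.range := ⟨_, rfl⟩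
    rw [h0] at h1
    exact congrArg Subtype.val (hf _ (Subgroup.mem_bot.1 h1))
  obtain ⟨ψ, ⟨_, y, rfl⟩, hy⟩ := free_li f.range hJ
  exact ⟨ψ.comp f.rangeRestrict, y, hy⟩

end coprod

theorem LocInd.of_injective {G K : Type} [Group G] [Group K] (h : LocInd K) (f : G →* K)
    (hf : Function.Injective f) : LocInd G := by
  intro H hH hne
  refine h.of_hom hH f ?_
  intro hle
  apply hne
  rw [Subgroup.eq_bot_iff_forall]
  intro x hx
  exact hf ((MonoidHom.mem_ker.1 (hle hx)).trans (map_one f).symm)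

section main

variable {G₀ X R A : Type} [Group G₀] [Group A]

/-- lifting of homomorphisms from free groups -/
theorem exists_lift_free {α : Type} (r : R → List (Letter G₀ X)) (P : FreeGroup α →* Grp r) :
    ∃ Q : FreeGroup α →* Base G₀ X, ∀ x, pr r (Q x) = P x := by
  choose lft hlft using pr_surjective r
  refine ⟨FreeGroup.lift fun i => lft (P (FreeGroup.of i)), fun x => ?_⟩
  have h : (pr r).comp (FreeGroup.lift fun i => lft (P (FreeGroup.of i))) = P := by
    ext i
    simp only [MonoidHom.comp_apply, FreeGroup.lift_apply_of]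
    rw [hlft]
  exact DFunLike.congr_fun h x

/-- The basic approximation: finitely many relations of a finitely generated subgroup of the kernel
hold in the free product already. -/
theorem approx {α : Type} (r : R → List (Letter G₀ X)) (ρ : Grp r →* A) (hfree : FreeSides r ρ)
    (P : FreeGroup α →* Grp r) (hP : ∀ x, ρ (P x) = 1) (T : Finset (FreeGroup α))
    (hT : ∀ x ∈ T, P x = 1) :
    ∃ Θ : FreeGroup α →* Base G₀ X, (∀ x, pr r (Θ x) = P x) ∧ ∀ x ∈ T, Θ x = 1 := by
  classical
  obtain ⟨Q, hQ⟩ := exists_lift_free r P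
  obtain ⟨C, hC⟩ := exists_coc_kill r ρ hfree (T.image Q) (by
    intro w hw
    obtain ⟨x, hx, rfl⟩ := Finset.mem_image.1 hw
    rw [hQ, hT x hx])
  refine ⟨MonoidHom.mk' (fun x => C.c 1 (Q x)) (by
      intro x y
      show C.c 1 (Q (x * y)) = C.c 1 (Q x) * C.c 1 (Q y)
      rw [map_mul, C.mul, hQ, hP, mul_one]), ?_, ?_⟩
  · intro x
    show pr r (C.c 1 (Q x)) = P x
    rw [C.pr_c, hQ]
  · intro x hx
    exact hC _ (Finset.mem_image_of_mem Q hx)

/-- descending a homomorphism to a subgroup -/
theorem exists_descend {α K M : Type} [Group K] [Group M] (P : FreeGroup α →* K)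
    (hP : Function.Surjective P) (Θ : FreeGroup α →* M) (h : ∀ x, P x = 1 → Θ x = 1) :
    ∃ θ : K →* M, ∀ x, θ (P x) = Θ x :=
  ⟨P.liftOfRightInverse (Function.surjInv hP) (Function.rightInverse_surjInv hP)
      ⟨Θ, fun x hx => MonoidHom.mem_ker.2 (h x (MonoidHom.mem_ker.1 hx))⟩,
    fun x => P.liftOfRightInverse_comp_apply (Function.surjInv hP)
      (Function.rightInverse_surjInv hP) _ x⟩

theorem ker_li (r : R → List (Letter G₀ X)) (ρ : Grp r →* A) (hfree : FreeSides r ρ)
    (hG₀ : LocInd G₀) (H : Subgroup (Grp r)) (hH : H.FG) (hne : H ≠ ⊥) (hk : H ≤ ρ.ker) :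
    ∃ ψ : H →* Multiplicative ℤ, ∃ x, ψ x ≠ 1 := by
  classical
  have : Group.FG H := (Group.fg_iff_subgroup_fg H).2 hH
  obtain ⟨α, hα, P, hP⟩ := Group.fg_iff_exists_freeGroup_hom_surjective_finite.1 this
  obtain ⟨T, hTK, hT⟩ := exists_finset_hom P.ker
  obtain ⟨Θ, h1, h2⟩ := approx r ρ hfree (H.subtype.comp P)
    (fun x => MonoidHom.mem_ker.1 (hk (P x).2)) T (by
      intro x hx
      show ((P x : H) : Grp r) = 1
      rw [MonoidHom.mem_ker.1 (hTK x hx)]
      rfl)
  have hJfg : Θ.range.FG := (Group.fg_iff_subgroup_fg _).1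
    (Group.fg_of_surjective Θ.rangeRestrict_surjective)
  have hJ : Θ.range ≠ ⊥ := by
    intro h0
    apply hne
    rw [Subgroup.eq_bot_iff_forall]
    intro x hx
    obtain ⟨y, hy⟩ := hP ⟨x, hx⟩
    have h3 : Θ y ∈ Θ.range := ⟨y, rfl⟩
    rw [h0, Subgroup.mem_bot] at h3
    have h4 := h1 y
    rw [h3, map_one] at h4
    have h5 : (1 : Grp r) = ((P y : H) : Grp r) := h4
    rw [hy] at h5
    exact h5.symm
  obtain ⟨ψ, hψ⟩ := li_base (X := X) hG₀ Θ.range hJfg hJ
  obtain ⟨⟨_, y, rfl⟩, hy⟩ := hψ (Multiplicative.ofAdd 1)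
  let φ : FreeGroup α →* Multiplicative ℤ := ψ.comp Θ.rangeRestrict
  have hφ : ∀ x ∈ P.ker, φ x = 1 := by
    apply hT φ
    intro x hx
    show ψ (Θ.rangeRestrict x) = 1
    have h3 : Θ.rangeRestrict x = 1 := Subtype.ext (h2 x hx)
    rw [h3, map_one]
  obtain ⟨f, hf⟩ := exists_descend P hP φ (fun x hx => hφ x (MonoidHom.mem_ker.2 hx))
  refine ⟨f, P y, ?_⟩
  rw [hf]
  show ψ (Θ.rangeRestrict y) ≠ 1
  have h3 : Θ.rangeRestrict y = ⟨Θ y, y, rfl⟩ := rfl
  rw [h3, hy]
  intro h4
  have : (1 : ℤ) = 0 := h4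
  exact one_ne_zero this

/-- local indicability of the group -/
theorem li_iff (r : R → List (Letter G₀ X)) (ρ : Grp r →* A) (hfree : FreeSides r ρ)
    (hA : LocInd A) : LocInd (Grp r) ↔ LocInd G₀ :=
  ⟨fun h => LocInd.of_injective h (coef r) (coef_injective r ρ hfree),
    fun h => LocInd.ext hA ρ fun H hH hne hk => ker_li r ρ hfree h H hH hne hk⟩

/-- finitely presented subgroups of the kernel -/
theorem lift_fp (r : R → List (Letter G₀ X)) (ρ : Grp r →* A) (hfree : FreeSides r ρ)
    (H : Subgroup (Grp r)) (hH : Group.IsFinitelyPresented H) (hk : H ≤ ρ.ker) :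
    ∃ θ : H →* Base G₀ X, ∀ x, pr r (θ x) = x := by
  classical
  obtain ⟨n, P, hP, hN⟩ := hH.out
  obtain ⟨T, hfin, hT⟩ := hN
  obtain ⟨Θ, h1, h2⟩ := approx r ρ hfree (H.subtype.comp P)
    (fun x => MonoidHom.mem_ker.1 (hk (P x).2)) hfin.toFinset (by
      intro x hx
      show ((P x : H) : Grp r) = 1
      have h3 : x ∈ P.ker := by
        rw [← hT]
        exact Subgroup.subset_normalClosure (hfin.mem_toFinset.1 hx)
      rw [MonoidHom.mem_ker.1 h3]
      rfl)
  obtain ⟨θ, hθ⟩ := exists_descend P hP Θ (by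
    intro x hx
    have h3 : x ∈ Subgroup.normalClosure T := by
      rw [hT]; exact MonoidHom.mem_ker.2 hx
    have h4 : Subgroup.normalClosure T ≤ Θ.ker :=
      Subgroup.normalClosure_le_normal fun y hy =>
        MonoidHom.mem_ker.2 (h2 y (hfin.mem_toFinset.2 hy))
    exact MonoidHom.mem_ker.1 (h4 h3))
  refine ⟨θ, fun x => ?_⟩
  obtain ⟨y, rfl⟩ := hP x
  rw [hθ, h1]
  rfl

/-- Equationally Noetherian groups: every set of words in finitely many variables has a finite
subset with the same solutions in the group. -/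
def EqNoeth (B : Type) [Group B] : Prop :=
  ∀ (n : ℕ) (S : Set (FreeGroup (Fin n))), ∃ T : Finset (FreeGroup (Fin n)), ↑T ⊆ S ∧
    ∀ f : FreeGroup (Fin n) →* B, (∀ w ∈ T, f w = 1) → ∀ w ∈ S, f w = 1

/-- finitely generated subgroups of the kernel -/
theorem lift_fg (r : R → List (Letter G₀ X)) (ρ : Grp r →* A) (hfree : FreeSides r ρ)
    (hB : EqNoeth (Base G₀ X)) (H : Subgroup (Grp r)) (hH : H.FG) (hk : H ≤ ρ.ker) :
    ∃ θ : H →* Base G₀ X, ∀ x, pr r (θ x) = x := by
  classical
  have hfg : Group.FG H := (Group.fg_iff_subgroup_fg H).2 hH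
  obtain ⟨α, hα, P₀, hP₀⟩ := Group.fg_iff_exists_freeGroup_hom_surjective_finite.1 hfg
  obtain ⟨n, P, hP⟩ : ∃ (n : ℕ) (P : FreeGroup (Fin n) →* H), Function.Surjective P :=
    ⟨Nat.card α, P₀.comp (FreeGroup.freeGroupCongr (Finite.equivFin α).symm).toMonoidHom,
      hP₀.comp (MulEquiv.surjective _)⟩
  obtain ⟨T, hTS, hT⟩ := hB n (P.ker : Set (FreeGroup (Fin n)))
  obtain ⟨Θ, h1, h2⟩ := approx r ρ hfree (H.subtype.comp P)
    (fun x => MonoidHom.mem_ker.1 (hk (P x).2)) T (by
      intro x hx
      show ((P x : H) : Grp r) = 1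
      have h3 : x ∈ P.ker := hTS hx
      rw [MonoidHom.mem_ker.1 h3]
      rfl)
  obtain ⟨θ, hθ⟩ := exists_descend P hP Θ (fun x hx => hT Θ h2 x (MonoidHom.mem_ker.2 hx))
  refine ⟨θ, fun x => ?_⟩
  obtain ⟨y, rfl⟩ := hP x
  rw [hθ, h1]
  rfl

end main

/-! ### Free groups are equationally Noetherian -/

/-- `FreeGroup X` is residually a fixed linear group -/
theorem exists_rep {X : Type} (w : FreeGroup X) (hw : w ≠ 1) :
    ∃ σ : FreeGroup X →* (Matrix (Fin 2) (Fin 2) ℤ)ˣ, σ w ≠ 1 := by
  classical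
  -- the letters of `w`
  let X₀ : Finset X := (w.toWord.map Prod.fst).toFinset
  let ι : X₀ → X := Subtype.val
  let ret : FreeGroup X →* FreeGroup X₀ :=
    FreeGroup.lift fun x => if h : x ∈ X₀ then FreeGroup.of ⟨x, h⟩ else 1
  have hw0 : FreeGroup.map ι (ret w) = w := by
    have key : ∀ L : List (X × Bool), (∀ p ∈ L, p.1 ∈ X₀) →
        FreeGroup.map ι (ret (FreeGroup.mk L)) = FreeGroup.mk L := by
      intro L
      induction L with
      | nil =>
        intro _
        show FreeGroup.map ι (ret 1) = 1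
        rw [map_one, map_one]
      | cons p L ih =>
        intro h
        have e : (FreeGroup.mk (p :: L) : FreeGroup X) = FreeGroup.mk [p] * FreeGroup.mk L := by
          rw [FreeGroup.mul_mk]; rfl
        rw [e, map_mul, map_mul, ih fun q hq => h q (List.mem_cons_of_mem _ hq)]
        congr 1
        have hp := h p List.mem_cons_self
        have h1 : FreeGroup.map ι (ret (FreeGroup.of p.1)) = FreeGroup.of p.1 := by
          show FreeGroup.map ι (FreeGroup.lift _ (FreeGroup.of p.1)) = _
          rw [FreeGroup.lift_apply_of, dif_pos hp, FreeGroup.map.of]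
        rcases p with ⟨x, _ | _⟩
        · have h2 : (FreeGroup.mk [(x, false)] : FreeGroup X) = (FreeGroup.of x)⁻¹ := rfl
          rw [h2, map_inv, map_inv, h1]
        · exact h1
    have h2 := key w.toWord (by
      intro p hp
      exact List.mem_toFinset.2 (List.mem_map_of_mem hp))
    rwa [FreeGroup.mk_toWord] at h2
  obtain ⟨f, hf⟩ := exists_injective_nat X₀
  have hinj : Function.Injective (fun i : X₀ => (f i : ℤ)) := fun a b hab => hf (by simpa using hab)
  refine ⟨(Helper189.FreeRep.rep (2 : ℤ)).comp ((FreeGroup.map fun i : X₀ => (f i : ℤ)).comp ret),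
    fun h => hw ?_⟩
  have h1 : FreeGroup.map (fun i : X₀ => (f i : ℤ)) (ret w) = 1 :=
    Helper189.FreeRep.rep_two_injective (h.trans (map_one _).symm)
  have h2 : ret w = 1 := FreeGroup.map_injective hinj (h1.trans (map_one _).symm)
  rw [← hw0, h2, map_one]

theorem eqNoeth_free (X : Type) : EqNoeth (FreeGroup X) := by
  intro n S
  obtain ⟨T, hT, h⟩ := X225.Ef.equational_mat (n := Fin 2) (R := ℤ) S
  refine ⟨T, hT, fun f hf w hw => ?_⟩
  by_contra hne
  obtain ⟨σ, hσ⟩ := exists_rep (f w) hne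
  apply hσ
  have key : ∀ v, FreeGroup.lift (fun i => σ (f (FreeGroup.of i))) v = σ (f v) := by
    intro v
    have : FreeGroup.lift (fun i => σ (f (FreeGroup.of i))) = σ.comp f := by
      ext i; simp
    rw [this]; rfl
  have h1 := h (fun i => σ (f (FreeGroup.of i))) (by
    intro v hv
    rw [key, hf v hv, map_one]) w hw
  rw [key] at h1
  exact h1

theorem EqNoeth.of_injective {B K : Type} [Group B] [Group K] (h : EqNoeth K) (g : B →* K)
    (hg : Function.Injective g) : EqNoeth B := by
  intro n S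
  obtain ⟨T, hT, h1⟩ := h n S
  refine ⟨T, hT, fun f hf w hw => hg ?_⟩
  rw [map_one]
  exact h1 (g.comp f) (fun v hv => by
    show g (f v) = 1
    rw [hf v hv, map_one]) w hw

/-- for a trivial coefficient group the free product is free -/
theorem snd_injective {G₀ X : Type} [Group G₀] [Subsingleton G₀] :
    Function.Injective (Coprod.snd : Base G₀ X →* FreeGroup X) := by
  have h : (Coprod.inr : FreeGroup X →* Base G₀ X).comp Coprod.snd = MonoidHom.id _ := by
    apply Coprod.hom_ext
    · ext g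
      have : g = 1 := Subsingleton.elim _ _
      rw [this, map_one, map_one]
    · ext x
      simp
  intro x y hxy
  have h1 := DFunLike.congr_fun h x
  have h2 := DFunLike.congr_fun h y
  rw [MonoidHom.comp_apply] at h1 h2
  rw [hxy] at h1
  exact h1.symm.trans h2

section free

variable {G₀ X R A : Type} [Group G₀] [Group A]

/-- the kernel is locally free -/
theorem ker_locally_free [Subsingleton G₀] (r : R → List (Letter G₀ X)) (ρ : Grp r →* A)
    (hfree : FreeSides r ρ) (H : Subgroup (Grp r)) (hH : H.FG) (hk : H ≤ ρ.ker) :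
    IsFreeGroup H := by
  obtain ⟨θ, hθ⟩ := lift_fg r ρ hfree
    ((eqNoeth_free X).of_injective Coprod.snd snd_injective) H hH hk
  have hinj : Function.Injective ((Coprod.snd : Base G₀ X →* FreeGroup X).comp θ) := by
    intro x y hxy
    have h1 : θ x = θ y := snd_injective hxy
    have h2 := hθ x
    rw [h1, hθ] at h2
    exact Subtype.ext h2.symm
  have : IsFreeGroup ((Coprod.snd : Base G₀ X →* FreeGroup X).comp θ).range :=
    subgroupIsFreeOfIsFree _
  exact IsFreeGroup.ofMulEquiv (MonoidHom.ofInjective hinj).symm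

end free

end Pool.Agent.X237.FS
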