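import Pool.Agent.X237.FS.Ker

/-!
# Tests for free sides
-/

set_option autoImplicit false

namespace Pool.Agent.X237.FS

open Monoid
open Pool.Agent.TH625.LOG (LocInd surj_of_ne)

section tests

variable {G₀ X R A : Type} [Group G₀] [Group A]

theorem mem_sides_smul {σ : Base G₀ X →* A} {a : A} {w : List (Letter G₀ X)} {s : X × A} :
    s ∈ sides σ a w ↔ ∃ b, (s.1, b) ∈ sides σ 1 w ∧ s.2 = a * b := by
  rw [sides_eq_map, List.mem_map]
  constructor
  · rintro ⟨t, ht, rfl⟩
    exact ⟨t.2, ht, rfl⟩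
  · rintro ⟨b, hb, h⟩
    exact ⟨(s.1, b), hb, Prod.ext rfl h.symm⟩

/-- translation of a side which occurs once -/
theorem once_smul {σ : Base G₀ X →* A} {w : List (Letter G₀ X)} {x : X} {b : A}
    {l₁ l₂ : List (X × A)} (h : sides σ 1 w = l₁ ++ (x, b) :: l₂) (h1 : (x, b) ∉ l₁)
    (h2 : (x, b) ∉ l₂) (a : A) :
    ∃ l₁' l₂' : List (X × A), sides σ a w = l₁' ++ (x, a * b) :: l₂' ∧ (x, a * b) ∉ l₁' ∧
      (x, a * b) ∉ l₂' := by
  refine ⟨l₁.map fun s => (s.1, a * s.2), l₂.map fun s => (s.1, a * s.2), ?_, ?_, ?_⟩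
  · rw [sides_eq_map, h, List.map_append, List.map_cons]
  · rw [List.mem_map]
    rintro ⟨⟨y, c⟩, hc, h3⟩
    simp only [Prod.mk.injEq, mul_right_inj] at h3
    rw [h3.1, h3.2] at hc
    exact h1 hc
  · rw [List.mem_map]
    rintro ⟨⟨y, c⟩, hc, h3⟩
    simp only [Prod.mk.injEq, mul_right_inj] at h3
    rw [h3.1, h3.2] at hc
    exact h2 hc

/-- **The level test.** -/
theorem freeSides_of_levels (r : R → List (Letter G₀ X)) (ρ : Grp r →* A) {Ω : Type}
    [LinearOrder Ω] [MulAction A Ω] (hΩ : ∀ (a : A) (p q : Ω), p ≤ q → a • p ≤ a • q)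
    (D : Set X) (lam : X → Ω) (m : R → Ω)
    (h1 : ∀ e, ∀ s ∈ sides (ρ.comp (pr r)) 1 (r e), s.1 ∈ D → m e ≤ s.2 • lam s.1)
    (h2 : ∀ F : Finset (R × A), F.Nonempty →
      (∀ d ∈ F, ∀ d' ∈ F, d.2 • m d.1 = d'.2 • m d'.1) → ∃ d ∈ F, ∃ s : X × A, s.1 ∈ D ∧
        s.2 • lam s.1 = d.2 • m d.1 ∧ IsFree r ρ F d s) : FreeSides r ρ := by
  classical
  intro S hS
  obtain ⟨d₀, hd₀, hmin⟩ := S.exists_min_image (fun d => d.2 • m d.1) hS
  obtain ⟨μ, hμ⟩ : ∃ μ, μ = d₀.2 • m d₀.1 := ⟨_, rfl⟩
  have hmin' : ∀ d ∈ S, μ ≤ d.2 • m d.1 := by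
    intro d hd
    rw [hμ]
    exact hmin d hd
  obtain ⟨d, hd, s, hsD, hsl, hs1, hs2⟩ := h2 (S.filter fun d => d.2 • m d.1 = μ)
    ⟨d₀, Finset.mem_filter.2 ⟨hd₀, hμ.symm⟩⟩ (by
      intro d hd d' hd'
      rw [(Finset.mem_filter.1 hd).2, (Finset.mem_filter.1 hd').2])
  obtain ⟨hdS, hdμ⟩ := Finset.mem_filter.1 hd
  refine ⟨d, hdS, s, hs1, ?_⟩
  intro d' hd' hne hmem
  obtain ⟨b', hb', hkb⟩ := mem_sides_smul.1 hmem
  have h7 := h1 d'.1 _ hb' hsD
  simp only at h7
  have h8 := hΩ d'.2 _ _ h7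
  rw [← mul_smul, ← hkb, hsl, hdμ] at h8
  exact hs2 d' (Finset.mem_filter.2 ⟨hd', le_antisymm h8 (hmin' d' hd')⟩) hne hmem

end tests

/-! ### Relations between positive words -/

section positive

variable {G₀ X R A : Type} [Group G₀] [Group A]

/-- The inverse of a word. -/
def winv : List (Letter G₀ X) → List (Letter G₀ X)
  | [] => []
  | .inl g :: w => winv w ++ [.inl g⁻¹]
  | .inr (x, b) :: w => winv w ++ [.inr (x, !b)]

/-- The word of a positive word, which is a sequence of elements of `G₀` and generators. -/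
def pos (u : List (G₀ ⊕ X)) : List (Letter G₀ X) := u.map (Sum.map id fun x => (x, true))

/-- The relator of the relation `u = v` between positive words. -/
def rel (u v : List (G₀ ⊕ X)) : List (Letter G₀ X) := pos u ++ winv (pos v)

theorem val_winv (w : List (Letter G₀ X)) : val (winv w) = (val w)⁻¹ := by
  induction w with
  | nil => simp [winv, val_nil]
  | cons l w ih =>
    rcases l with g | ⟨x, _ | _⟩
    · simp only [winv]
      rw [val_append, ih, val_cons, val_cons, val_nil, mul_one, mul_inv_rev]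
      rfl
    · simp only [winv]
      rw [val_append, ih, val_cons, val_cons, val_nil, mul_one, mul_inv_rev]
      rw [show lval (.inr (x, false) : Letter G₀ X) = (gen G₀ x)⁻¹ from rfl, inv_inv]
      rfl
    · simp only [winv]
      rw [val_append, ih, val_cons, val_cons, val_nil, mul_one, mul_inv_rev]
      rfl

theorem val_rel (u v : List (G₀ ⊕ X)) : val (rel u v) = val (pos u) * (val (pos v))⁻¹ := by
  rw [rel, val_append, val_winv]

/-- the sides of the inverse path -/
theorem sides_winv (σ : Base G₀ X →* A) (a : A) (w : List (Letter G₀ X)) :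
    sides σ (a * σ (val w)) (winv w) = (sides σ a w).reverse := by
  induction w generalizing a with
  | nil => simp [winv, sides]
  | cons l w ih =>
    rcases l with g | ⟨x, _ | _⟩
    · simp only [winv, sides]
      rw [val_cons, map_mul, ← mul_assoc, sides_append, val_winv, map_inv, mul_inv_cancel_right]
      rw [show σ (lval (.inl g : Letter G₀ X)) = σ (Coprod.inl g) from rfl, ih]
      simp [sides]
    · simp only [winv, sides]
      have hv : σ (lval (.inr (x, false) : Letter G₀ X)) = (σ (gen G₀ x))⁻¹ := by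
        show σ (gen G₀ x)⁻¹ = _
        rw [map_inv]
      rw [val_cons, map_mul, ← mul_assoc, sides_append, val_winv, map_inv, mul_inv_cancel_right,
        hv, ih]
      simp [sides]
    · simp only [winv, sides]
      have hv : σ (lval (.inr (x, true) : Letter G₀ X)) = σ (gen G₀ x) := rfl
      rw [val_cons, map_mul, ← mul_assoc, sides_append, val_winv, map_inv, mul_inv_cancel_right,
        hv, ih]
      simp [sides]

theorem sides_rel (σ : Base G₀ X →* A) (a : A) (u v : List (G₀ ⊕ X))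
    (h : σ (val (rel u v)) = 1) :
    sides σ a (rel u v) = sides σ a (pos u) ++ (sides σ a (pos v)).reverse := by
  have h1 : σ (val (pos u)) = σ (val (pos v)) := by
    rw [val_rel, map_mul, map_inv, mul_inv_eq_one] at h
    exact h
  rw [rel, sides_append, h1, sides_winv]

/-- the levels of the sides of a positive word -/
theorem level_pos [LinearOrder A] (hA : ∀ a b c : A, b ≤ c → a * b ≤ a * c)
    (σ : Base G₀ X →* A) (hX : ∀ z, 1 ≤ σ (gen G₀ z)) (a : A) (u : List (G₀ ⊕ X))
    (hu : ∀ g, Sum.inl g ∈ u → 1 ≤ σ (Coprod.inl g)) :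
    a ≤ a * σ (val (pos u)) ∧ ∀ s ∈ sides σ a (pos u),
      a ≤ s.2 ∧ s.2 * σ (gen G₀ s.1) ≤ a * σ (val (pos u)) := by
  induction u generalizing a with
  | nil => simp [pos, sides, val_nil]
  | cons l u ih =>
    have hmono : ∀ b c : A, 1 ≤ c → b ≤ b * c := fun b c hc => by
      have := hA b 1 c hc
      rwa [mul_one] at this
    have hu' : ∀ g, Sum.inl g ∈ u → 1 ≤ σ (Coprod.inl g) :=
      fun g hg => hu g (List.mem_cons_of_mem _ hg)
    rcases l with g | x
    · have e : pos ((.inl g : G₀ ⊕ X) :: u) = .inl g :: pos u := rfl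
      obtain ⟨h1, h2⟩ := ih (a * σ (Coprod.inl g)) hu'
      have h3 : a * σ (val (pos ((.inl g : G₀ ⊕ X) :: u))) =
          a * σ (Coprod.inl g) * σ (val (pos u)) := by
        rw [e, val_cons, map_mul, mul_assoc]; rfl
      have h4 := hmono a _ (hu g List.mem_cons_self)
      rw [h3]
      refine ⟨h4.trans h1, ?_⟩
      intro s hs
      rw [e] at hs
      simp only [sides] at hs
      obtain ⟨h5, h6⟩ := h2 s hs
      exact ⟨h4.trans h5, h6⟩
    · have e : pos ((.inr x : G₀ ⊕ X) :: u) = .inr (x, true) :: pos u := rfl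
      obtain ⟨h1, h2⟩ := ih (a * σ (gen G₀ x)) hu'
      have h3 : a * σ (val (pos ((.inr x : G₀ ⊕ X) :: u))) =
          a * σ (gen G₀ x) * σ (val (pos u)) := by
        rw [e, val_cons, map_mul, mul_assoc]; rfl
      have h4 := hmono a _ (hX x)
      rw [h3]
      refine ⟨h4.trans h1, ?_⟩
      intro s hs
      rw [e] at hs
      simp only [sides, List.mem_cons] at hs
      rcases hs with rfl | hs
      · exact ⟨le_refl _, h1⟩
      · obtain ⟨h5, h6⟩ := h2 s hs
        exact ⟨h4.trans h5, h6⟩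

/-- **No cycles.** The graph with the vertex set `X` and one edge between `x e` and `y e` for every
`e` has no cycles (in particular no loops and no double edges): every nonempty finite set of edges
contains an edge `e` with an end point `z` which is not the other end point of `e` and not an end
point of the other edges of the set. -/
def Forest (x y : R → X) : Prop :=
  ∀ F : Finset R, F.Nonempty → ∃ e ∈ F, ∃ z, (z = x e ∧ z ≠ y e ∨ z = y e ∧ z ≠ x e) ∧
    ∀ e' ∈ F, e' ≠ e → z ≠ x e' ∧ z ≠ y e'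

/-- The relators of the relations `x_e u_e = y_e v_e`. -/
def first (x y : R → X) (u v : R → List (G₀ ⊕ X)) (e : R) : List (Letter G₀ X) :=
  rel (.inr (x e) :: u e) (.inr (y e) :: v e)

/-- The relators of the relations `u_e x_e = v_e y_e`. -/
def last (x y : R → X) (u v : R → List (G₀ ⊕ X)) (e : R) : List (Letter G₀ X) :=
  rel (u e ++ [.inr (x e)]) (v e ++ [.inr (y e)])

/-- positive relations, first letters -/
theorem freeSides_first [LinearOrder A] (hA : ∀ a b c : A, b ≤ c → a * b ≤ a * c)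
    (x y : R → X) (u v : R → List (G₀ ⊕ X)) (ρ : Grp (first x y u v) →* A)
    (hX : ∀ z, 1 ≤ ρ (pr (first x y u v) (gen G₀ z)))
    (hG : ∀ e g, Sum.inl g ∈ u e ∨ Sum.inl g ∈ v e → 1 ≤ ρ (coef (first x y u v) g))
    (hx : ∀ e, 1 < ρ (pr (first x y u v) (gen G₀ (x e))))
    (hy : ∀ e, 1 < ρ (pr (first x y u v) (gen G₀ (y e)))) (hF : Forest x y) :
    FreeSides (first x y u v) ρ := by
  classical
  obtain ⟨σ, hσ⟩ : ∃ σ, σ = ρ.comp (pr (first x y u v)) := ⟨_, rfl⟩
  have hXσ : ∀ z, 1 ≤ σ (gen G₀ z) := by rw [hσ]; exact hX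
  have hxσ : ∀ e, 1 < σ (gen G₀ (x e)) := by rw [hσ]; exact hx
  have hyσ : ∀ e, 1 < σ (gen G₀ (y e)) := by rw [hσ]; exact hy
  have hGσ : ∀ e g, Sum.inl g ∈ u e ∨ Sum.inl g ∈ v e → 1 ≤ σ (Coprod.inl g) := by
    rw [hσ]; exact hG
  have hrel : ∀ e, σ (val (first x y u v e)) = 1 := by
    intro e
    rw [hσ]
    show ρ (pr _ _) = 1
    rw [pr_val, map_one]
  -- the sides of the relator
  have hsides : ∀ e, sides σ 1 (first x y u v e) =
      (x e, 1) :: sides σ (σ (gen G₀ (x e))) (pos (u e)) ++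
        ((y e, 1) :: sides σ (σ (gen G₀ (y e))) (pos (v e))).reverse := by
    intro e
    have hv : ∀ (z : X) (u' : List (G₀ ⊕ X)), sides σ 1 (pos (.inr z :: u')) =
        (z, 1) :: sides σ (σ (gen G₀ z)) (pos u') := by
      intro z u'
      have e1 : pos ((.inr z : G₀ ⊕ X) :: u') = .inr (z, true) :: pos u' := rfl
      rw [e1]
      simp only [sides]
      rw [one_mul]
    unfold first
    rw [sides_rel σ 1 _ _ (hrel e), hv, hv]
  have hlow : ∀ (z : X) (_ : 1 < σ (gen G₀ z)) (u' : List (G₀ ⊕ X))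
      (_ : ∀ g, Sum.inl g ∈ u' → 1 ≤ σ (Coprod.inl g)),
      ∀ s ∈ sides σ (σ (gen G₀ z)) (pos u'), 1 < s.2 := by
    intro z hz u' hu' s hs
    exact lt_of_lt_of_le hz ((level_pos hA σ hXσ _ u' hu').2 s hs).1
  have hlx : ∀ e, ∀ s ∈ sides σ (σ (gen G₀ (x e))) (pos (u e)), 1 < s.2 :=
    fun e => hlow _ (hxσ e) _ fun g hg => hGσ e g (Or.inl hg)
  have hly : ∀ e, ∀ s ∈ sides σ (σ (gen G₀ (y e))) (pos (v e)), 1 < s.2 :=
    fun e => hlow _ (hyσ e) _ fun g hg => hGσ e g (Or.inr hg)
  refine freeSides_of_levels _ ρ (Ω := A) (fun a p q h => hA a p q h) Set.univ (fun _ => 1)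
    (fun _ => 1) ?_ ?_
  · intro e s hs _
    rw [← hσ, hsides] at hs
    simp only [List.cons_append, List.mem_cons, List.mem_append, List.mem_reverse] at hs
    rw [smul_eq_mul, mul_one]
    rcases hs with rfl | hs | rfl | hs
    · exact le_refl _
    · exact (hlx e s hs).le
    · exact le_refl _
    · exact (hly e s hs).le
  · intro F hFn hlev
    obtain ⟨d, hd, z, hz, hz2⟩ := hF (F.image Prod.fst) (hFn.image _)
    obtain ⟨⟨e, k⟩, hk, rfl⟩ := Finset.mem_image.1 hd
    simp only at hz hz2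
    refine ⟨(e, k), hk, (z, k * 1), Set.mem_univ _, ?_, ?_, ?_⟩
    · simp only [smul_eq_mul, mul_one]
    · simp only
      rw [← hσ]
      have hns : ∀ e, (z, (1 : A)) ∉ sides σ (σ (gen G₀ (x e))) (pos (u e)) :=
        fun e hm => lt_irrefl _ (hlx e _ hm)
      have hnt : ∀ e, (z, (1 : A)) ∉ sides σ (σ (gen G₀ (y e))) (pos (v e)) :=
        fun e hm => lt_irrefl _ (hly e _ hm)
      rcases hz with ⟨rfl, hz1⟩ | ⟨rfl, hz1⟩
      · refine once_smul (l₁ := []) (l₂ := sides σ (σ (gen G₀ (x e))) (pos (u e)) ++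
          ((y e, 1) :: sides σ (σ (gen G₀ (y e))) (pos (v e))).reverse) ?_ List.not_mem_nil ?_ k
        · rw [hsides]; rfl
        · simp only [List.mem_append, List.mem_reverse, List.mem_cons, Prod.mk.injEq, and_true]
          rintro (hm | hm | hm)
          · exact hns _ hm
          · exact hz1 hm
          · exact hnt _ hm
      · refine once_smul (l₁ := (x e, 1) :: sides σ (σ (gen G₀ (x e))) (pos (u e)) ++
          (sides σ (σ (gen G₀ (y e))) (pos (v e))).reverse) (l₂ := []) ?_ ?_ List.not_mem_nil k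
        · rw [hsides, List.reverse_cons]; simp
        · simp only [List.cons_append, List.mem_cons, List.mem_append, List.mem_reverse,
            Prod.mk.injEq, and_true]
          rintro (hm | hm | hm)
          · exact hz1 hm
          · exact hns _ hm
          · exact hnt _ hm
    · rintro ⟨e', k'⟩ hd' hne hmem
      rw [← hσ] at hmem
      obtain ⟨b', hb', hkb⟩ := mem_sides_smul.1 hmem
      have hkk : k' = k := by
        have := hlev _ hd' _ hk
        simpa only [smul_eq_mul, mul_one] using this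
      subst hkk
      have hb1 : b' = 1 := mul_left_cancel hkb.symm
      subst hb1
      have hee : e' ≠ e := fun h => hne (by rw [h])
      obtain ⟨h1, h2⟩ := hz2 e' (Finset.mem_image_of_mem Prod.fst hd') hee
      rw [hsides] at hb'
      simp only [List.cons_append, List.mem_cons, List.mem_append, List.mem_reverse,
        Prod.mk.injEq, and_true] at hb'
      rcases hb' with hm | hm | hm | hm
      · exact h1 hm
      · exact lt_irrefl _ (hlx e' _ hm)
      · exact h2 hm
      · exact lt_irrefl _ (hly e' _ hm)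

/-- positive relations, last letters -/
theorem freeSides_last [LinearOrder A] (hA : ∀ a b c : A, b ≤ c → a * b ≤ a * c)
    (x y : R → X) (u v : R → List (G₀ ⊕ X)) (ρ : Grp (last x y u v) →* A)
    (hX : ∀ z, 1 ≤ ρ (pr (last x y u v) (gen G₀ z)))
    (hG : ∀ e g, Sum.inl g ∈ u e ∨ Sum.inl g ∈ v e → 1 ≤ ρ (coef (last x y u v) g))
    (hx : ∀ e, 1 < ρ (pr (last x y u v) (gen G₀ (x e))))
    (hy : ∀ e, 1 < ρ (pr (last x y u v) (gen G₀ (y e)))) (hF : Forest x y) :
    FreeSides (last x y u v) ρ := by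
  classical
  obtain ⟨σ, hσ⟩ : ∃ σ, σ = ρ.comp (pr (last x y u v)) := ⟨_, rfl⟩
  have hXσ : ∀ z, 1 ≤ σ (gen G₀ z) := by rw [hσ]; exact hX
  have hxσ : ∀ e, 1 < σ (gen G₀ (x e)) := by rw [hσ]; exact hx
  have hyσ : ∀ e, 1 < σ (gen G₀ (y e)) := by rw [hσ]; exact hy
  have hGσ : ∀ e g, Sum.inl g ∈ u e ∨ Sum.inl g ∈ v e → 1 ≤ σ (Coprod.inl g) := by
    rw [hσ]; exact hG
  have hrel : ∀ e, σ (val (last x y u v e)) = 1 := by
    intro e
    rw [hσ]
    show ρ (pr _ _) = 1
    rw [pr_val, map_one]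
  have hA' : ∀ a b c : A, b < c → a * b < a * c := fun a b c h =>
    lt_of_le_of_ne (hA a b c h.le) fun h' => h.ne (mul_left_cancel h')
  -- the top level
  obtain ⟨top, htop⟩ : ∃ top : R → A, top = fun e => σ (val (pos (u e))) * σ (gen G₀ (x e)) :=
    ⟨_, rfl⟩
  have hposend : ∀ (u' : List (G₀ ⊕ X)) (z : X), val (pos (u' ++ [.inr z])) =
      val (pos u') * gen G₀ z := by
    intro u' z
    have e1 : pos (u' ++ [(.inr z : G₀ ⊕ X)]) = pos u' ++ [.inr (z, true)] := by
      unfold pos
      rw [List.map_append]; rfl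
    rw [e1, val_append, val_cons, val_nil, mul_one]; rfl
  have htopx : ∀ e, σ (val (pos (u e))) = top e * (σ (gen G₀ (x e)))⁻¹ := by
    intro e
    rw [htop]; simp
  have htopy : ∀ e, σ (val (pos (v e))) = top e * (σ (gen G₀ (y e)))⁻¹ := by
    intro e
    have h := hrel e
    unfold last at h
    rw [val_rel, map_mul, map_inv, mul_inv_eq_one, hposend, hposend, map_mul, map_mul] at h
    rw [htop]
    simp only
    rw [h, mul_inv_cancel_right]
  have hsides : ∀ e, sides σ 1 (last x y u v e) =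
      (sides σ 1 (pos (u e)) ++ [(x e, top e * (σ (gen G₀ (x e)))⁻¹)]) ++
        (sides σ 1 (pos (v e)) ++ [(y e, top e * (σ (gen G₀ (y e)))⁻¹)]).reverse := by
    intro e
    have hv : ∀ (z : X) (u' : List (G₀ ⊕ X)), sides σ 1 (pos (u' ++ [.inr z])) =
        sides σ 1 (pos u') ++ [(z, σ (val (pos u')))] := by
      intro z u'
      have e1 : pos (u' ++ [(.inr z : G₀ ⊕ X)]) = pos u' ++ [.inr (z, true)] := by
        unfold pos
        rw [List.map_append]; rfl
      rw [e1, sides_append, one_mul]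
      simp [sides]
    unfold last
    rw [sides_rel σ 1 _ _ (hrel e), hv, hv, htopx, htopy]
  have hlow : ∀ (e : R) (z : X) (_ : 1 < σ (gen G₀ z)) (u' : List (G₀ ⊕ X))
      (_ : ∀ g, Sum.inl g ∈ u' → 1 ≤ σ (Coprod.inl g))
      (_ : σ (val (pos u')) = top e * (σ (gen G₀ z))⁻¹),
      ∀ s ∈ sides σ 1 (pos u'), s.2 * σ (gen G₀ s.1) < top e := by
    intro e z hz u' hu' hut s hs
    have h1 := ((level_pos hA σ hXσ 1 u' hu').2 s hs).2
    rw [one_mul, hut] at h1
    refine lt_of_le_of_lt h1 ?_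
    have h2 := hA' (top e * (σ (gen G₀ z))⁻¹) 1 _ hz
    rwa [mul_one, inv_mul_cancel_right] at h2
  have hlx : ∀ e, ∀ s ∈ sides σ 1 (pos (u e)), s.2 * σ (gen G₀ s.1) < top e :=
    fun e => hlow e _ (hxσ e) _ (fun g hg => hGσ e g (Or.inl hg)) (htopx e)
  have hly : ∀ e, ∀ s ∈ sides σ 1 (pos (v e)), s.2 * σ (gen G₀ s.1) < top e :=
    fun e => hlow e _ (hyσ e) _ (fun g hg => hGσ e g (Or.inr hg)) (htopy e)
  have hsm : ∀ (a : A) (b : A), a • (OrderDual.toDual b) = OrderDual.toDual (a * b) :=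
    fun _ _ => rfl
  refine freeSides_of_levels _ ρ (Ω := Aᵒᵈ) (fun a p q h => ?_) Set.univ
    (fun z => OrderDual.toDual (σ (gen G₀ z))) (fun e => OrderDual.toDual (top e)) ?_ ?_
  · show a * OrderDual.ofDual q ≤ a * OrderDual.ofDual p
    exact hA _ _ _ h
  · intro e s hs _
    rw [← hσ, hsides] at hs
    simp only [List.mem_cons, List.mem_append, List.mem_reverse, List.not_mem_nil, or_false] at hs
    rw [hsm]
    show s.2 * σ (gen G₀ s.1) ≤ top e
    rcases hs with (hs | rfl) | (hs | rfl)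
    · exact (hlx e s hs).le
    · rw [inv_mul_cancel_right]
    · exact (hly e s hs).le
    · rw [inv_mul_cancel_right]
  · intro F hFn hlev
    obtain ⟨d, hd, z, hz, hz2⟩ := hF (F.image Prod.fst) (hFn.image _)
    obtain ⟨⟨e, k⟩, hk, rfl⟩ := Finset.mem_image.1 hd
    simp only at hz hz2
    refine ⟨(e, k), hk, (z, k * (top e * (σ (gen G₀ z))⁻¹)), Set.mem_univ _, ?_, ?_, ?_⟩
    · simp only [hsm]
      rw [mul_assoc, inv_mul_cancel_right]
    · simp only
      rw [← hσ]
      have hns : (z, top e * (σ (gen G₀ z))⁻¹) ∉ sides σ 1 (pos (u e)) := by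
        intro hm
        have h1 := hlx e _ hm
        simp only [inv_mul_cancel_right] at h1
        exact lt_irrefl _ h1
      have hnt : (z, top e * (σ (gen G₀ z))⁻¹) ∉ sides σ 1 (pos (v e)) := by
        intro hm
        have h1 := hly e _ hm
        simp only [inv_mul_cancel_right] at h1
        exact lt_irrefl _ h1
      rcases hz with ⟨rfl, hz1⟩ | ⟨rfl, hz1⟩
      · refine once_smul (l₁ := sides σ 1 (pos (u e))) (l₂ := (sides σ 1 (pos (v e)) ++
          [(y e, top e * (σ (gen G₀ (y e)))⁻¹)]).reverse) ?_ hns ?_ k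
        · rw [hsides]; simp
        · simp only [List.mem_append, List.mem_reverse, List.mem_cons, Prod.mk.injEq,
            List.not_mem_nil, or_false]
          rintro (hm | hm)
          · exact hnt hm
          · exact hz1 hm.1
      · refine once_smul (l₁ := sides σ 1 (pos (u e)) ++ [(x e, top e * (σ (gen G₀ (x e)))⁻¹)])
          (l₂ := (sides σ 1 (pos (v e))).reverse) ?_ ?_ ?_ k
        · rw [hsides]; simp
        · simp only [List.mem_cons, List.mem_append, Prod.mk.injEq, List.not_mem_nil, or_false]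
          rintro (hm | hm)
          · exact hns hm
          · exact hz1 hm.1
        · rw [List.mem_reverse]; exact hnt
    · rintro ⟨e', k'⟩ hd' hne hmem
      rw [← hσ] at hmem
      obtain ⟨b', hb', hkb⟩ := mem_sides_smul.1 hmem
      simp only at hb' hkb
      have hlev' : k' * top e' = k * top e := by
        have := hlev _ hd' _ hk
        exact this
      have hbt : b' * σ (gen G₀ z) = top e' := by
        apply mul_left_cancel (a := k')
        rw [hlev', ← mul_assoc, ← hkb, mul_assoc, inv_mul_cancel_right]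
      have hee : e' ≠ e := by
        intro h
        subst h
        exact hne (Prod.ext rfl (mul_right_cancel hlev'))
      obtain ⟨h1, h2⟩ := hz2 e' (Finset.mem_image_of_mem Prod.fst hd') hee
      rw [hsides] at hb'
      simp only [List.mem_cons, List.mem_append, List.mem_reverse, Prod.mk.injEq,
        List.not_mem_nil, or_false] at hb'
      rcases hb' with (hm | hm) | (hm | hm)
      · exact absurd hbt (hlx e' _ hm).ne
      · exact h1 hm.1
      · exact absurd hbt (hly e' _ hm).ne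
      · exact h2 hm.1

end positive

end Pool.Agent.X237.FS
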