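import Pool.Agent.X237.FS.Tests

/-!
# Positive relations with integral weights and word labelled oriented graphs
-/

set_option autoImplicit false

namespace Pool.Agent.X237.FS

open Monoid
open Pool.Agent.TH625.LOG (LocInd surj_of_ne)

theorem li_int : LocInd (Multiplicative ℤ) := by
  intro H _ hne
  refine surj_of_ne H.subtype ?_
  by_contra hcon
  push Not at hcon
  apply hne
  rw [Subgroup.eq_bot_iff_forall]
  intro x hx
  exact hcon ⟨x, hx⟩

theorem li_triv {G : Type} [Group G] [Subsingleton G] : LocInd G := by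
  intro H _ hne
  exact absurd (Subsingleton.elim _ _) hne

section positive

variable {G₀ X R : Type} [Group G₀]

/-- The weight of a positive word: the sum of the weights of its generators; the elements of `G₀`
have weight zero. -/
def wt (ω : X → ℤ) (u : List (G₀ ⊕ X)) : ℤ := (u.map (Sum.elim (fun _ => 0) ω)).sum

/-- the homomorphism of the free product given by weights -/
def wtHom (G₀ : Type) {X : Type} [Group G₀] (ω : X → ℤ) : Base G₀ X →* Multiplicative ℤ :=
  Coprod.lift 1 (FreeGroup.lift fun x => Multiplicative.ofAdd (ω x))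

theorem wtHom_gen (ω : X → ℤ) (x : X) : wtHom G₀ ω (gen G₀ x) = Multiplicative.ofAdd (ω x) := by
  simp [wtHom, gen]

theorem wtHom_inl (ω : X → ℤ) (g : G₀) : wtHom G₀ ω (Coprod.inl g) = 1 := by
  simp [wtHom]

theorem wtHom_pos (ω : X → ℤ) (u : List (G₀ ⊕ X)) :
    wtHom G₀ ω (val (pos u)) = Multiplicative.ofAdd (wt ω u) := by
  induction u with
  | nil => simp [pos, val_nil, wt]
  | cons l u ih =>
    have e : pos (l :: u) = Sum.map id (fun x => (x, true)) l :: pos u := rfl
    rw [e, val_cons, map_mul, ih]
    rcases l with g | x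
    · have h1 : wt ω (.inl g :: u) = wt ω u := by simp [wt]
      rw [h1]
      show wtHom G₀ ω (Coprod.inl g) * _ = _
      rw [wtHom_inl, one_mul]
    · have h1 : wt ω ((.inr x : G₀ ⊕ X) :: u) = ω x + wt ω u := by simp [wt]
      rw [h1, ofAdd_add]
      show wtHom G₀ ω (gen G₀ x) * _ = _
      rw [wtHom_gen]

/-- the homomorphism of the group given by weights -/
theorem exists_wtGrp (r : R → List (Letter G₀ X)) (ω : X → ℤ)
    (h : ∀ e, wtHom G₀ ω (val (r e)) = 1) :
    ∃ ρ : Grp r →* Multiplicative ℤ, ρ.comp (pr r) = wtHom G₀ ω := by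
  refine ⟨QuotientGroup.lift _ (wtHom G₀ ω) ?_, ?_⟩
  · intro w hw
    have h4 : Subgroup.normalClosure (Set.range fun e => val (r e)) ≤ (wtHom G₀ ω).ker := by
      apply Subgroup.normalClosure_le_normal
      rintro _ ⟨e, rfl⟩
      exact MonoidHom.mem_ker.2 (h e)
    exact MonoidHom.mem_ker.1 (h4 hw)
  · ext <;> rfl

/-- **Positive homogeneous relations** with a forest of first (last) letters. -/
theorem positive_main (ω : X → ℤ) (hω : ∀ z, 0 ≤ ω z) (x y : R → X)
    (u v : R → List (G₀ ⊕ X)) (hx : ∀ e, 0 < ω (x e)) (hy : ∀ e, 0 < ω (y e))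
    (hwt : ∀ e, ω (x e) + wt ω (u e) = ω (y e) + wt ω (v e)) (hF : Forest x y)
    (r : R → List (Letter G₀ X)) (hr : r = first x y u v ∨ r = last x y u v) :
    ∃ ρ : Grp r →* Multiplicative ℤ, ρ.comp (pr r) = wtHom G₀ ω ∧ FreeSides r ρ := by
  have hex : ∃ ρ : Grp r →* Multiplicative ℤ, ρ.comp (pr r) = wtHom G₀ ω := by
    apply exists_wtGrp
    intro e
    rcases hr with rfl | rfl
    · have h1 : ∀ (z : X) (u' : List (G₀ ⊕ X)), wt ω ((.inr z : G₀ ⊕ X) :: u') =
          ω z + wt ω u' := by
        intro z u'; simp [wt]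
      unfold first
      rw [val_rel, map_mul, map_inv, wtHom_pos, wtHom_pos, h1, h1, hwt, mul_inv_cancel]
    · have h1 : ∀ (z : X) (u' : List (G₀ ⊕ X)), wt ω (u' ++ [(.inr z : G₀ ⊕ X)]) =
          ω z + wt ω u' := by
        intro z u'
        simp [wt]
        ring
      unfold last
      rw [val_rel, map_mul, map_inv, wtHom_pos, wtHom_pos, h1, h1, hwt, mul_inv_cancel]
  obtain ⟨ρ, hρ⟩ := hex
  refine ⟨ρ, hρ, ?_⟩
  have hgen : ∀ z, ρ (pr r (gen G₀ z)) = Multiplicative.ofAdd (ω z) := fun z => by
    rw [← wtHom_gen (G₀ := G₀), ← hρ]; rfl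
  have hinl : ∀ g, ρ (coef r g) = 1 := fun g => by
    rw [← wtHom_inl (G₀ := G₀) ω g, ← hρ]; rfl
  have hA : ∀ a b c : Multiplicative ℤ, b ≤ c → a * b ≤ a * c := fun a b c h => by
    show Multiplicative.toAdd a + Multiplicative.toAdd b ≤
      Multiplicative.toAdd a + Multiplicative.toAdd c
    have : Multiplicative.toAdd b ≤ Multiplicative.toAdd c := h
    omega
  have h1 : ∀ z, 1 ≤ ρ (pr r (gen G₀ z)) := fun z => by
    rw [hgen]
    show (0 : ℤ) ≤ ω z
    exact hω z
  have h2 : ∀ z, 0 < ω z → 1 < ρ (pr r (gen G₀ z)) := fun z hz => by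
    rw [hgen]
    show (0 : ℤ) < ω z
    exact hz
  rcases hr with rfl | rfl
  · exact freeSides_first hA x y u v ρ h1 (fun _ g _ => (hinl g).ge) (fun e => h2 _ (hx e))
      (fun e => h2 _ (hy e)) hF
  · exact freeSides_last hA x y u v ρ h1 (fun _ g _ => (hinl g).ge) (fun e => h2 _ (hx e))
      (fun e => h2 _ (hy e)) hF

end positive

/-! ### Word labelled oriented graphs -/

/-- A word labelled oriented graph with vertex set `V` and edge set `E`: the edge `e` runs from
`ini e` to `ter e`, and its label is the nonempty positive word `lab e` in the vertices. -/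
structure WLOG (V E : Type) where
  ini : E → V
  ter : E → V
  lab : E → List V
  ne : ∀ e, lab e ≠ []

namespace WLOG

variable {V E : Type}

/-- The label as an element of the free group. -/
def word (L : WLOG V E) (e : E) : FreeGroup V := ((L.lab e).map FreeGroup.of).prod

/-- The relator of the edge `e`, which says `ini e · w = w · ter e`, where `w` is the label. -/
def rel (L : WLOG V E) (e : E) : FreeGroup V :=
  FreeGroup.of (L.ini e) * L.word e * (FreeGroup.of (L.ter e))⁻¹ * (L.word e)⁻¹

/-- The first letter of the label. -/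
def fst (L : WLOG V E) (e : E) : V := (L.lab e).head (L.ne e)

/-- The last letter of the label. -/
def lst (L : WLOG V E) (e : E) : V := (L.lab e).getLast (L.ne e)

theorem fst_cons (L : WLOG V E) (e : E) : L.fst e :: (L.lab e).tail = L.lab e :=
  List.cons_head_tail (L.ne e)

theorem lst_append (L : WLOG V E) (e : E) : (L.lab e).dropLast ++ [L.lst e] = L.lab e :=
  List.dropLast_append_getLast (L.ne e)

/-- the relators as a relative presentation over the trivial group -/
def frel (L : WLOG V E) : E → List (Letter Unit V) :=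
  first L.ini L.fst (fun e => (L.lab e).map Sum.inr)
    (fun e => ((L.lab e).tail ++ [L.ter e]).map Sum.inr)

/-- the relators as a relative presentation over the trivial group -/
def lrel (L : WLOG V E) : E → List (Letter Unit V) :=
  last L.lst L.ter (fun e => (L.ini e :: (L.lab e).dropLast).map Sum.inr)
    (fun e => (L.lab e).map Sum.inr)

theorem val_pos_inr (u : List V) :
    val (pos (G₀ := Unit) (u.map Sum.inr)) = Coprod.inr ((u.map FreeGroup.of).prod) := by
  induction u with
  | nil => simp [pos, val_nil]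
  | cons x u ih =>
    have e : pos (G₀ := Unit) ((x :: u).map Sum.inr) = .inr (x, true) :: pos (u.map Sum.inr) := rfl
    rw [e, val_cons, ih, List.map_cons, List.prod_cons, map_mul]
    rfl

theorem rel_eq (L : WLOG V E) (e : E) :
    L.rel e = ((L.ini e :: L.lab e).map FreeGroup.of).prod *
      (((L.lab e ++ [L.ter e]).map FreeGroup.of).prod)⁻¹ := by
  unfold rel word
  rw [List.map_cons, List.prod_cons, List.map_append, List.prod_append]
  simp only [List.map_cons, List.map_nil, List.prod_cons, List.prod_nil, mul_one]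
  group

theorem val_frel (L : WLOG V E) (e : E) : val (L.frel e) = Coprod.inr (L.rel e) := by
  unfold frel first
  rw [val_rel]
  have h1 : (.inr (L.ini e) : Unit ⊕ V) :: (L.lab e).map Sum.inr =
      (L.ini e :: L.lab e).map Sum.inr := rfl
  have h2 : (.inr (L.fst e) : Unit ⊕ V) :: ((L.lab e).tail ++ [L.ter e]).map Sum.inr =
      (L.lab e ++ [L.ter e]).map Sum.inr := by
    conv_rhs => rw [← L.fst_cons e]
    rfl
  rw [h1, h2, val_pos_inr, val_pos_inr, ← map_inv, ← map_mul, rel_eq]

theorem val_lrel (L : WLOG V E) (e : E) : val (L.lrel e) = Coprod.inr (L.rel e) := by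
  unfold lrel last
  rw [val_rel]
  have h1 : (L.ini e :: (L.lab e).dropLast).map Sum.inr ++ [(.inr (L.lst e) : Unit ⊕ V)] =
      (L.ini e :: L.lab e).map Sum.inr := by
    conv_rhs => rw [← L.lst_append e]
    simp
  have h2 : (L.lab e).map Sum.inr ++ [(.inr (L.ter e) : Unit ⊕ V)] =
      (L.lab e ++ [L.ter e]).map Sum.inr := by simp
  rw [h1, h2, val_pos_inr, val_pos_inr, ← map_inv, ← map_mul, rel_eq]

/-- the embedding of the group of `L` -/
theorem exists_embedding (L : WLOG V E) (r : E → List (Letter Unit V))
    (hr : ∀ e, val (r e) = Coprod.inr (L.rel e)) :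
    ∃ f : PresentedGroup (Set.range L.rel) →* Grp r, Function.Injective f := by
  have h1 : ∀ w : FreeGroup V, FreeGroup.lift (fun z => pr r (gen Unit z)) w =
      pr r (Coprod.inr w) := by
    intro w
    have : FreeGroup.lift (fun z => pr r (gen Unit z)) = (pr r).comp Coprod.inr := by
      ext z
      simp [gen]
    rw [this]; rfl
  have h2 : ∀ w ∈ Set.range L.rel, FreeGroup.lift (fun z => pr r (gen Unit z)) w = 1 := by
    rintro _ ⟨e, rfl⟩
    rw [h1, ← hr, pr_val]
  let g : Grp r →* PresentedGroup (Set.range L.rel) :=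
    QuotientGroup.lift _ ((PresentedGroup.mk (Set.range L.rel)).comp Coprod.snd) (by
      intro w hw
      have h4 : Subgroup.normalClosure (Set.range fun e => val (r e)) ≤
          ((PresentedGroup.mk (Set.range L.rel)).comp Coprod.snd).ker := by
        apply Subgroup.normalClosure_le_normal
        rintro _ ⟨e, rfl⟩
        refine MonoidHom.mem_ker.2 ?_
        show PresentedGroup.mk (Set.range L.rel) (Coprod.snd (val (r e))) = 1
        rw [hr, Coprod.snd_apply_inr]
        exact PresentedGroup.one_of_mem ⟨e, rfl⟩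
      exact MonoidHom.mem_ker.1 (h4 hw))
  refine ⟨PresentedGroup.toGroup h2, ?_⟩
  apply Function.LeftInverse.injective (g := g)
  intro w
  have h5 : g.comp (PresentedGroup.toGroup h2) = MonoidHom.id _ := by
    ext z
    show g (PresentedGroup.toGroup h2 (PresentedGroup.of z)) = PresentedGroup.of z
    rw [PresentedGroup.toGroup.of]
    rfl
  exact DFunLike.congr_fun h5 w

theorem main_aux (L : WLOG V E) (r : E → List (Letter Unit V))
    (hr : ∀ e, val (r e) = Coprod.inr (L.rel e)) (ρ : Grp r →* Multiplicative ℤ)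
    (hfree : FreeSides r ρ) :
    LocInd (PresentedGroup (Set.range L.rel)) ∧
    ∀ H : Subgroup (PresentedGroup (Set.range L.rel)), H.FG →
      H ≤ commutator (PresentedGroup (Set.range L.rel)) → IsFreeGroup H := by
  obtain ⟨f, hf⟩ := L.exists_embedding r hr
  refine ⟨LocInd.of_injective ((li_iff r ρ hfree li_int).2 li_triv) f hf, ?_⟩
  intro H hH hk
  have hfg : Group.FG H := (Group.fg_iff_subgroup_fg H).2 hH
  have hfg' : (H.map f).FG := (Group.fg_iff_subgroup_fg _).1
    (Group.fg_of_surjective (f := (H.equivMapOfInjective f hf).toMonoidHom)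
      (H.equivMapOfInjective f hf).surjective)
  have h4 : IsFreeGroup (H.map f) := ker_locally_free r ρ hfree (H.map f) hfg' (by
    rw [Subgroup.map_le_iff_le_comap, MonoidHom.comap_ker]
    refine hk.trans ?_
    rw [commutator_def, Subgroup.commutator_le]
    intro a _ b _
    rw [MonoidHom.mem_ker]
    rw [map_commutatorElement]
    exact commutatorElement_eq_one_iff_mul_comm.2 (mul_comm _ _))
  exact IsFreeGroup.ofMulEquiv (H.equivMapOfInjective f hf).symm

/-- local indicability and the commutator subgroup -/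
theorem main (L : WLOG V E) (hF : Forest L.ini L.fst ∨ Forest L.lst L.ter) :
    LocInd (PresentedGroup (Set.range L.rel)) ∧
    ∀ H : Subgroup (PresentedGroup (Set.range L.rel)), H.FG →
      H ≤ commutator (PresentedGroup (Set.range L.rel)) → IsFreeGroup H := by
  have hlen : ∀ u : List V, wt (G₀ := Unit) (fun _ : V => (1 : ℤ)) (u.map Sum.inr) = u.length := by
    intro u
    induction u with
    | nil => simp [wt]
    | cons a u ih =>
      have : wt (G₀ := Unit) (fun _ : V => (1 : ℤ)) ((a :: u).map Sum.inr) =
          1 + wt (G₀ := Unit) (fun _ : V => (1 : ℤ)) (u.map Sum.inr) := by simp [wt]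
      rw [this, ih, List.length_cons]
      push_cast
      ring
  rcases hF with hF | hF
  · obtain ⟨ρ, -, hfree⟩ := positive_main (G₀ := Unit) (fun _ : V => (1 : ℤ))
      (fun _ => zero_le_one) L.ini L.fst (fun e => (L.lab e).map Sum.inr)
      (fun e => ((L.lab e).tail ++ [L.ter e]).map Sum.inr) (fun _ => one_pos) (fun _ => one_pos)
      (by
        intro e
        rw [hlen, hlen]
        conv_lhs => rw [← L.fst_cons e]
        simp) hF L.frel (Or.inl rfl)
    exact main_aux L L.frel L.val_frel ρ hfree
  · obtain ⟨ρ, -, hfree⟩ := positive_main (G₀ := Unit) (fun _ : V => (1 : ℤ))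
      (fun _ => zero_le_one) L.lst L.ter (fun e => (L.ini e :: (L.lab e).dropLast).map Sum.inr)
      (fun e => (L.lab e).map Sum.inr) (fun _ => one_pos) (fun _ => one_pos)
      (by
        intro e
        rw [hlen, hlen]
        conv_rhs => rw [← L.lst_append e]
        simp) hF L.lrel (Or.inr rfl)
    exact main_aux L L.lrel L.val_lrel ρ hfree

/-- killing one generator of a connected word labelled oriented graph -/
theorem kill (L : WLOG V E)
    (hL : (SimpleGraph.fromEdgeSet (Set.range fun e => s(L.ini e, L.ter e))).Preconnected) (v : V) :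
    ∀ g : PresentedGroup (Set.range L.rel ∪ {FreeGroup.of v}), g = 1 := by
  set S : Set (FreeGroup V) := Set.range L.rel ∪ {FreeGroup.of v} with hS
  have h0 : (PresentedGroup.of v : PresentedGroup S) = 1 :=
    PresentedGroup.one_of_mem (Or.inr rfl)
  have hstep : ∀ e, (PresentedGroup.of (L.ini e) : PresentedGroup S) = 1 ↔
      (PresentedGroup.of (L.ter e) : PresentedGroup S) = 1 := by
    intro e
    have h1 : PresentedGroup.mk S (L.rel e) = 1 := PresentedGroup.one_of_mem (Or.inl ⟨e, rfl⟩)
    unfold rel at h1
    rw [map_mul, map_mul, map_mul, map_inv, map_inv] at h1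
    have h2 : (PresentedGroup.of (L.ini e) : PresentedGroup S) *
      PresentedGroup.mk S (L.word e) * (PresentedGroup.of (L.ter e))⁻¹ *
      (PresentedGroup.mk S (L.word e))⁻¹ = 1 := h1
    constructor
    · intro h
      rw [h, one_mul, mul_inv_eq_one, mul_eq_left] at h2
      exact inv_eq_one.1 h2
    · intro h
      rw [h, inv_one, mul_one, mul_inv_cancel_right] at h2
      exact h2
  have hadj : ∀ a b, (SimpleGraph.fromEdgeSet (Set.range fun e => s(L.ini e, L.ter e))).Adj a b →
      (PresentedGroup.of a : PresentedGroup S) = 1 → (PresentedGroup.of b : PresentedGroup S) = 1 := by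
    intro a b hab ha
    rw [SimpleGraph.fromEdgeSet_adj] at hab
    obtain ⟨⟨e, he⟩, -⟩ := hab
    rw [Sym2.eq_iff] at he
    rcases he with ⟨h1, h2⟩ | ⟨h1, h2⟩
    · rw [← h2]; rw [← h1] at ha; exact (hstep e).1 ha
    · rw [← h1]; rw [← h2] at ha; exact (hstep e).2 ha
  have hwalk : ∀ a b, (SimpleGraph.fromEdgeSet
      (Set.range fun e => s(L.ini e, L.ter e))).Walk a b →
      (PresentedGroup.of a : PresentedGroup S) = 1 → (PresentedGroup.of b : PresentedGroup S) = 1 := by
    intro a b p
    induction p with
    | nil => exact id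
    | cons hac _ ih => exact fun h => ih (hadj _ _ hac h)
  have hall : ∀ b, (PresentedGroup.of b : PresentedGroup S) = 1 := by
    intro b
    obtain ⟨p⟩ := hL v b
    exact hwalk v b p h0
  intro g
  have h1 : (MonoidHom.id (PresentedGroup S)) = 1 := by
    ext z
    exact hall z
  exact DFunLike.congr_fun h1 g

end WLOG

end Pool.Agent.X237.FS

namespace Pool.Agent.X237.FS

open Pool.Agent.TH625.LOG (LocInd surj_of_ne)

/-- A group is locally free if its finitely generated subgroups are free. -/
def LocallyFree (G : Type) [Group G] : Prop := ∀ H : Subgroup G, H.FG → IsFreeGroup H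

/-- The subgroup `H` of `G` lifts to `B`: there is a homomorphism `θ : H → B` with `π θ = id`. -/
def Lifts {B G : Type} [Group B] [Group G] (π : B →* G) (H : Subgroup G) : Prop :=
  ∃ θ : H →* B, ∀ h, π (θ h) = h

theorem map_fg {G K : Type} [Group G] [Group K] (f : G →* K) (hf : Function.Injective f)
    (H : Subgroup G) (hH : H.FG) : (H.map f).FG := by
  have hfg : Group.FG H := (Group.fg_iff_subgroup_fg H).2 hH
  exact (Group.fg_iff_subgroup_fg _).1
    (Group.fg_of_surjective (f := (H.equivMapOfInjective f hf).toMonoidHom)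
      (H.equivMapOfInjective f hf).surjective)

theorem locInd_sub {G : Type} [Group G] (K : Subgroup G)
    (h : ∀ H : Subgroup G, H.FG → H ≠ ⊥ → H ≤ K → ∃ ψ : H →* Multiplicative ℤ, ∃ x, ψ x ≠ 1) :
    LocInd K := by
  intro H hH hne
  have hinj : Function.Injective K.subtype := K.subtype_injective
  obtain ⟨ψ, x, hx⟩ := h (H.map K.subtype) (map_fg _ hinj H hH) (by
    intro h0
    apply hne
    rwa [Subgroup.map_eq_bot_iff_of_injective H hinj] at h0) (by
      rintro _ ⟨y, _, rfl⟩
      exact y.2)
  refine surj_of_ne (ψ.comp (H.equivMapOfInjective K.subtype hinj).toMonoidHom) ?_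
  refine ⟨(H.equivMapOfInjective K.subtype hinj).symm x, ?_⟩
  show ψ ((H.equivMapOfInjective K.subtype hinj) ((H.equivMapOfInjective K.subtype hinj).symm x)) ≠ 1
  rwa [MulEquiv.apply_symm_apply]

theorem locallyFree_sub {G : Type} [Group G] (K : Subgroup G)
    (h : ∀ H : Subgroup G, H.FG → H ≤ K → IsFreeGroup H) : LocallyFree K := by
  intro H hH
  have hinj : Function.Injective K.subtype := K.subtype_injective
  have := h (H.map K.subtype) (map_fg _ hinj H hH) (by
      rintro _ ⟨y, _, rfl⟩
      exact y.2)
  exact IsFreeGroup.ofMulEquiv (H.equivMapOfInjective K.subtype hinj).symm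

/-- The group of the word labelled oriented graph `L`: generators `V`, relators `rel e`. -/
def WLOG.G {V E : Type} (L : WLOG V E) : Type := PresentedGroup (Set.range L.rel)

instance {V E : Type} (L : WLOG V E) : Group L.G :=
  inferInstanceAs (Group (PresentedGroup (Set.range L.rel)))

/-- Killing the generator `v` gives the trivial group. -/
def WLOG.TrivialAfterKilling {V E : Type} (L : WLOG V E) (v : V) : Prop :=
  ∀ g : PresentedGroup (Set.range L.rel ∪ {FreeGroup.of v}), g = 1

/-- The underlying graph of `L` is connected (or empty). -/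
def WLOG.Connected {V E : Type} (L : WLOG V E) : Prop :=
  (SimpleGraph.fromEdgeSet (Set.range fun e => s(L.ini e, L.ter e))).Preconnected

theorem WLOG.main' {V E : Type} (L : WLOG V E) (hF : Forest L.ini L.fst ∨ Forest L.lst L.ter) :
    LocInd L.G ∧ LocallyFree (commutator L.G) :=
  ⟨(L.main hF).1, locallyFree_sub _ (L.main hF).2⟩

end Pool.Agent.X237.FS
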